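import Pool.Agent.H64.SA.Skein
import Pool.Agent.H55.SA.Rep

/-!
# Finiteness of outer classes of automorphisms with bounded traces on simple elements
-/

open Matrix MatrixGroups Topology Filter Set

set_option linter.unusedSimpArgs false

namespace Pool.Agent.SimpleAnosov.H64

variable {Γ : Subgroup SL(2, ℝ)}

lemma Bdd.mul {a b : ℝ} {g h : SL(2, ℝ)} (hg : Bdd a g) (hh : Bdd b h) : Bdd (2 * (a * b)) (g * h) := by
  have ha : 0 ≤ a := le_trans (abs_nonneg _) (hg 0 0)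
  intro i j
  rw [Matrix.SpecialLinearGroup.coe_mul, Matrix.mul_apply, Fin.sum_univ_two]
  calc |g i 0 * h 0 j + g i 1 * h 1 j| ≤ |g i 0 * h 0 j| + |g i 1 * h 1 j| := abs_add_le _ _
    _ = |g i 0| * |h 0 j| + |g i 1| * |h 1 j| := by rw [abs_mul, abs_mul]
    _ ≤ a * b + a * b := by
        gcongr
        · exact hg i 0
        · exact hh 0 j
        · exact hg i 1
        · exact hh 1 j
    _ = 2 * (a * b) := by ring

lemma Bdd.inv {a : ℝ} {g : SL(2, ℝ)} (hg : Bdd a g) : Bdd a g⁻¹ := by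
  intro i j
  fin_cases i <;> fin_cases j
  · show |g⁻¹ 0 0| ≤ a
    rw [i00]; exact hg 1 1
  · show |g⁻¹ 0 1| ≤ a
    rw [i01, abs_neg]; exact hg 0 1
  · show |g⁻¹ 1 0| ≤ a
    rw [i10, abs_neg]; exact hg 1 0
  · show |g⁻¹ 1 1| ≤ a
    rw [i11]; exact hg 0 0

/-- a unit of the matrix ring acts by conjugation like an element of `SL(2, ℝ)`, up to signs -/
lemma exists_sl_conj (u : (Matrix (Fin 2) (Fin 2) ℝ)ˣ) : ∃ v : SL(2, ℝ), ∀ M : Matrix (Fin 2) (Fin 2) ℝ,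
    ∀ i j, |((v : Matrix (Fin 2) (Fin 2) ℝ) * M * ((v⁻¹ : SL(2, ℝ)) : Matrix (Fin 2) (Fin 2) ℝ)) i j| =
      |((u : Matrix (Fin 2) (Fin 2) ℝ) * M * ((u⁻¹ : (Matrix (Fin 2) (Fin 2) ℝ)ˣ) :
        Matrix (Fin 2) (Fin 2) ℝ)) i j| := by
  set U : Matrix (Fin 2) (Fin 2) ℝ := Units.val u with hU
  set D := U.det with hD
  have hD0 : D ≠ 0 := by
    have h1 : IsUnit U := u.isUnit
    exact ((Matrix.isUnit_iff_isUnit_det U).mp h1).ne_zero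
  have hUinv : ((u⁻¹ : (Matrix (Fin 2) (Fin 2) ℝ)ˣ) : Matrix (Fin 2) (Fin 2) ℝ) = D⁻¹ • U.adjugate := by
    have h1 : U * (D⁻¹ • U.adjugate) = 1 := by
      rw [Matrix.mul_smul, Matrix.mul_adjugate, smul_smul, inv_mul_cancel₀ hD0, one_smul]
    have h2 : ((u⁻¹ : (Matrix (Fin 2) (Fin 2) ℝ)ˣ) : Matrix (Fin 2) (Fin 2) ℝ) * U = 1 := Units.inv_mul u
    calc ((u⁻¹ : (Matrix (Fin 2) (Fin 2) ℝ)ˣ) : Matrix (Fin 2) (Fin 2) ℝ) =
        ((u⁻¹ : (Matrix (Fin 2) (Fin 2) ℝ)ˣ) : Matrix (Fin 2) (Fin 2) ℝ) * (U * (D⁻¹ • U.adjugate)) := by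
          rw [h1, mul_one]
      _ = (((u⁻¹ : (Matrix (Fin 2) (Fin 2) ℝ)ˣ) : Matrix (Fin 2) (Fin 2) ℝ) * U) * (D⁻¹ • U.adjugate) := by
          rw [Matrix.mul_assoc]
      _ = _ := by rw [h2, Matrix.one_mul]
  set r := (√|D|)⁻¹ with hr
  have hr2 : r ^ 2 * |D| = 1 := by
    rw [hr, inv_pow, Real.sq_sqrt (abs_nonneg _)]
    have : |D| ≠ 0 := abs_ne_zero.mpr hD0
    field_simp
  have hr2' : r ^ 2 = |D|⁻¹ := eq_inv_of_mul_eq_one_left hr2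
  have key : ∀ M : Matrix (Fin 2) (Fin 2) ℝ, ∀ i j, |(U * M * (D⁻¹ • U.adjugate)) i j| =
      r ^ 2 * |(U * M * U.adjugate) i j| := by
    intro M i j
    rw [Matrix.mul_smul, Matrix.smul_apply, smul_eq_mul, abs_mul, abs_inv, hr2']
  rw [hUinv]
  have hDe : D = U 0 0 * U 1 1 - U 0 1 * U 1 0 := by rw [hD, Matrix.det_fin_two]
  -- general conjugation
  have conj : ∀ (e : ℝ), e ^ 2 = 1 → e * |D| = D → ∃ v : SL(2, ℝ), ∀ M : Matrix (Fin 2) (Fin 2) ℝ,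
      ∀ i j, |((v : Matrix (Fin 2) (Fin 2) ℝ) * M * ((v⁻¹ : SL(2, ℝ)) : Matrix (Fin 2) (Fin 2) ℝ)) i j| =
      |(U * M * (D⁻¹ • U.adjugate)) i j| := by
    intro e he heD
    have hdet : (!![r * U 0 0, r * U 0 1; e * r * U 1 0, e * r * U 1 1] : Matrix (Fin 2) (Fin 2) ℝ).det = 1 := by
      rw [Matrix.det_fin_two_of]
      have : r * U 0 0 * (e * r * U 1 1) - r * U 0 1 * (e * r * U 1 0) = e * r ^ 2 * D := by
        rw [hDe]; ring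
      rw [this, ← heD]
      linear_combination (r ^ 2 * |D|) * he + hr2
    refine ⟨⟨_, hdet⟩, ?_⟩
    set v : SL(2, ℝ) := ⟨_, hdet⟩ with hv
    have v00 : v 0 0 = r * U 0 0 := rfl
    have v01 : v 0 1 = r * U 0 1 := rfl
    have v10 : v 1 0 = e * r * U 1 0 := rfl
    have v11 : v 1 1 = e * r * U 1 1 := rfl
    have habs : |e| = 1 := by
      have : |e| ^ 2 = 1 := by rw [sq_abs, he]
      nlinarith [abs_nonneg e]
    intro M i j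
    rw [key]
    have a00 : U.adjugate 0 0 = U 1 1 := by rw [Matrix.adjugate_fin_two]; rfl
    have a01 : U.adjugate 0 1 = -U 0 1 := by rw [Matrix.adjugate_fin_two]; rfl
    have a10 : U.adjugate 1 0 = -U 1 0 := by rw [Matrix.adjugate_fin_two]; rfl
    have a11 : U.adjugate 1 1 = U 0 0 := by rw [Matrix.adjugate_fin_two]; rfl
    have hrr : 0 ≤ r ^ 2 := sq_nonneg _
    have q1 : ∀ x y : ℝ, x = r ^ 2 * y → |x| = r ^ 2 * |y| := by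
      intro x y h
      rw [h, abs_mul, abs_of_nonneg hrr]
    have q2 : ∀ x y : ℝ, x = e * (r ^ 2 * y) → |x| = r ^ 2 * |y| := by
      intro x y h
      rw [h, abs_mul, abs_mul, habs, abs_of_nonneg hrr, one_mul]
    fin_cases i <;> fin_cases j
    · show |((v : Matrix (Fin 2) (Fin 2) ℝ) * M * ((v⁻¹ : SL(2, ℝ)) : Matrix (Fin 2) (Fin 2) ℝ)) 0 0| =
        r ^ 2 * |(U * M * U.adjugate) 0 0|
      simp only [Matrix.mul_apply, Fin.sum_univ_two, i00, i01, i10, i11, v00, v01, v10, v11, a00, a01, a10, a11]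
      apply q2; ring
    · show |((v : Matrix (Fin 2) (Fin 2) ℝ) * M * ((v⁻¹ : SL(2, ℝ)) : Matrix (Fin 2) (Fin 2) ℝ)) 0 1| =
        r ^ 2 * |(U * M * U.adjugate) 0 1|
      simp only [Matrix.mul_apply, Fin.sum_univ_two, i00, i01, i10, i11, v00, v01, v10, v11, a00, a01, a10, a11]
      apply q1; ring
    · show |((v : Matrix (Fin 2) (Fin 2) ℝ) * M * ((v⁻¹ : SL(2, ℝ)) : Matrix (Fin 2) (Fin 2) ℝ)) 1 0| =
        r ^ 2 * |(U * M * U.adjugate) 1 0|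
      simp only [Matrix.mul_apply, Fin.sum_univ_two, i00, i01, i10, i11, v00, v01, v10, v11, a00, a01, a10, a11]
      apply q1
      linear_combination (r ^ 2 * ((U 1 0 * M 0 0 + U 1 1 * M 1 0) * U 1 1 -
        (U 1 0 * M 0 1 + U 1 1 * M 1 1) * U 1 0)) * he
    · show |((v : Matrix (Fin 2) (Fin 2) ℝ) * M * ((v⁻¹ : SL(2, ℝ)) : Matrix (Fin 2) (Fin 2) ℝ)) 1 1| =
        r ^ 2 * |(U * M * U.adjugate) 1 1|
      simp only [Matrix.mul_apply, Fin.sum_univ_two, i00, i01, i10, i11, v00, v01, v10, v11, a00, a01, a10, a11]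
      apply q2; ring
  rcases lt_or_gt_of_ne hD0 with hneg | hpos
  · exact conj (-1) (by norm_num) (by rw [abs_of_neg hneg]; ring)
  · exact conj 1 (by norm_num) (by rw [abs_of_pos hpos]; ring)

/-- the representation given by an automorphism -/
noncomputable def repOf (φ : MulAut Γ) : Γ →* Matrix (Fin 2) (Fin 2) ℝ where
  toFun g := (((φ g : Γ) : SL(2, ℝ)) : Matrix (Fin 2) (Fin 2) ℝ)
  map_one' := by rw [map_one]; rfl
  map_mul' g h := by rw [map_mul]; rfl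

/-- finitely many representatives modulo inner automorphisms -/
theorem finite_reps (hΓ : IsSurfaceGroup Γ) (Φ : Set (MulAut Γ))
    (h : ∀ f : Γ, IsSimpleElt Γ f → ∃ M : ℝ, ∀ φ ∈ Φ, |tr ((φ f : Γ) : SL(2, ℝ))| ≤ M) :
    ∃ T : Set (MulAut Γ), T.Finite ∧ ∀ φ ∈ Φ, ∃ τ ∈ T, ∃ c : Γ, φ = MulAut.conj c * τ := by
  classical
  -- all traces are bounded
  have hall : ∀ w : Γ, ∃ M : ℝ, ∀ φ ∈ Φ, |tr ((φ w : Γ) : SL(2, ℝ))| ≤ M := by
    intro w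
    obtain ⟨F, hF, H⟩ := controlled hΓ w
    have h1 : ∃ M : ℝ, ∀ f ∈ F, ∀ φ ∈ Φ, |tr ((φ f : Γ) : SL(2, ℝ))| ≤ M := by
      choose! B hB using fun f hf => h f (hF f hf)
      obtain ⟨M, hM⟩ := (F.finite_toSet.image B).bddAbove
      refine ⟨M, fun f hf φ hφ => (hB f hf φ hφ).trans (hM ⟨f, hf, rfl⟩)⟩
    obtain ⟨M, hM⟩ := h1
    obtain ⟨M', hM'⟩ := H M
    refine ⟨M', fun φ hφ => ?_⟩
    exact hM' (Γ.subtype.comp φ.toMonoidHom) (fun f hf => hM f hf φ hφ)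
  -- generators
  obtain ⟨S, hS⟩ := fg hΓ
  set S' : Finset Γ := S ∪ S.image (fun x => x⁻¹) with hS'
  have hS'c : Submonoid.closure (S' : Set Γ) = ⊤ := by
    have h1 : (S' : Set Γ) = (S : Set Γ) ∪ (S : Set Γ)⁻¹ := by
      rw [hS', Finset.coe_union, Finset.coe_image, Set.image_inv_eq_inv]
    rw [h1, ← Subgroup.closure_toSubmonoid, hS, Subgroup.top_toSubmonoid]
  obtain ⟨u, hu⟩ := rep_bdd (𝕜 := ℝ) (d := 2) S' hS'c (fun φ : Φ => repOf (φ : MulAut Γ)) (by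
    intro g
    obtain ⟨M, hM⟩ := hall g
    exact ⟨M, fun φ => hM φ φ.2⟩)
  choose v hv using fun φ : Φ => exists_sl_conj (u φ)
  obtain ⟨K, hK, hcov⟩ := hΓ.cocompact
  obtain ⟨B, hB1, hB⟩ := exists_bdd hK
  have hck : ∀ φ : Φ, ∃ c ∈ Γ, ∃ k ∈ K, (v φ)⁻¹ = c * k := fun φ => hcov _
  choose c hc k hk hck using hck
  -- bounded conjugates
  have hbd : ∀ g : Γ, ∃ M : ℝ, ∀ φ : Φ, Bdd M ((c φ)⁻¹ * (((φ : MulAut Γ) g : Γ) : SL(2, ℝ)) * c φ) := by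
    intro g
    obtain ⟨M, hM⟩ := hu g
    refine ⟨2 * (2 * (B * M) * B), fun φ => ?_⟩
    have e1 : (c φ)⁻¹ * (((φ : MulAut Γ) g : Γ) : SL(2, ℝ)) * c φ =
        k φ * (v φ * (((φ : MulAut Γ) g : Γ) : SL(2, ℝ)) * (v φ)⁻¹) * (k φ)⁻¹ := by
      have e2 : v φ = (k φ)⁻¹ * (c φ)⁻¹ := by
        rw [← _root_.mul_inv_rev, ← hck φ, inv_inv]
      rw [e2]; group
    rw [e1]
    have h1 : Bdd M (v φ * (((φ : MulAut Γ) g : Γ) : SL(2, ℝ)) * (v φ)⁻¹) := by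
      intro i j
      have h2 := hv φ (repOf (φ : MulAut Γ) g) i j
      have h3 := hM φ i j
      rw [Matrix.SpecialLinearGroup.coe_mul, Matrix.SpecialLinearGroup.coe_mul]
      refine le_trans (le_of_eq h2) h3
    exact ((hB _ (hk φ)).mul h1).mul (hB _ (hk φ)).inv
  -- the finite invariant
  set R : Φ → (S → Γ) := fun φ s => ⟨c φ, hc φ⟩⁻¹ * (φ : MulAut Γ) (s : Γ) * ⟨c φ, hc φ⟩ with hR
  have hRfin : (Set.range R).Finite := by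
    have h1 : ∀ s : S, {x : Γ | ∃ φ : Φ, R φ s = x}.Finite := by
      intro s
      obtain ⟨M, hM⟩ := hbd s
      have h2 := (sg_finite_bdd hΓ M).preimage (f := fun x : Γ => (x : SL(2, ℝ))) Subtype.val_injective.injOn
      refine h2.subset ?_
      rintro x ⟨φ, rfl⟩
      exact ⟨(R φ s).2, hM φ⟩
    refine (Set.Finite.pi' h1).subset ?_
    rintro _ ⟨φ, rfl⟩ s
    exact ⟨φ, rfl⟩
  obtain ⟨Φ', -, hbij⟩ := Set.exists_subset_bijOn (Set.univ : Set Φ) R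
  have hΦ'fin : Φ'.Finite := by
    apply Set.Finite.of_finite_image _ hbij.injOn
    rw [hbij.image_eq, Set.image_univ]; exact hRfin
  refine ⟨(fun φ : Φ => (φ : MulAut Γ)) '' Φ', hΦ'fin.image _, ?_⟩
  intro φ hφ
  obtain ⟨τ, hτ, hRτ⟩ := hbij.surjOn (show R ⟨φ, hφ⟩ ∈ R '' Set.univ from ⟨_, trivial, rfl⟩)
  set a : Γ := ⟨c ⟨φ, hφ⟩, hc _⟩ with ha
  set b : Γ := ⟨c τ, hc _⟩ with hb
  refine ⟨τ, ⟨τ, hτ, rfl⟩, a * b⁻¹, ?_⟩
  -- equality on generators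
  have hgen : ∀ s : S, b⁻¹ * (τ : MulAut Γ) (s : Γ) * b = a⁻¹ * φ (s : Γ) * a := fun s => congrFun hRτ s
  have heq : ((MulAut.conj (a * b⁻¹) * (τ : MulAut Γ) : MulAut Γ)).toMonoidHom = φ.toMonoidHom := by
    apply MonoidHom.eq_of_eqOn_dense hS
    intro x hx
    have h1 := hgen ⟨x, hx⟩
    show (a * b⁻¹) * (τ : MulAut Γ) x * (a * b⁻¹)⁻¹ = φ x
    have h2 : (a * b⁻¹) * (τ : MulAut Γ) x * (a * b⁻¹)⁻¹ = a * (b⁻¹ * (τ : MulAut Γ) x * b) * a⁻¹ := by group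
    rw [h2, h1]; group
  apply MulEquiv.ext
  intro x
  exact (DFunLike.congr_fun heq x).symm

theorem out_finite (hΓ : IsSurfaceGroup Γ) (Φ : Set (MulAut Γ))
    (h : ∀ f : Γ, IsSimpleElt Γ f → ∃ M : ℝ, ∀ φ ∈ Φ,
      |(((φ f : Γ) : SL(2, ℝ)) : Matrix (Fin 2) (Fin 2) ℝ).trace| ≤ M) :
    {m : Out Γ | ∃ φ ∈ Φ, (φ : Out Γ) = m}.Finite := by
  obtain ⟨T, hT, H⟩ := finite_reps hΓ Φ h
  refine (hT.image (fun τ : MulAut Γ => (τ : Out Γ))).subset ?_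
  rintro m ⟨φ, hφ, rfl⟩
  obtain ⟨τ, hτ, c, rfl⟩ := H φ hφ
  refine ⟨τ, hτ, ?_⟩
  show ((τ : MulAut Γ) : Out Γ) = ((MulAut.conj c * τ : MulAut Γ) : Out Γ)
  rw [QuotientGroup.eq]
  refine ⟨τ⁻¹ c, ?_⟩
  ext x
  simp [MulAut.conj_apply]

theorem out_finite_inv (hΓ : IsSurfaceGroup Γ) (Φ : Set (MulAut Γ))
    (h : ∀ f : Γ, IsSimpleElt Γ f → ∃ M : ℝ, ∀ φ ∈ Φ,
      |(((φ f : Γ) : SL(2, ℝ)) : Matrix (Fin 2) (Fin 2) ℝ).trace| ≤ M) :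
    {m : Out Γ | ∃ φ ∈ Φ, ((φ⁻¹ : MulAut Γ) : Out Γ) = m}.Finite := by
  obtain ⟨T, hT, H⟩ := finite_reps hΓ Φ h
  refine (hT.image (fun τ : MulAut Γ => ((τ⁻¹ : MulAut Γ) : Out Γ))).subset ?_
  rintro m ⟨φ, hφ, rfl⟩
  obtain ⟨τ, hτ, c, rfl⟩ := H φ hφ
  refine ⟨τ, hτ, ?_⟩
  show ((τ⁻¹ : MulAut Γ) : Out Γ) = (((MulAut.conj c * τ)⁻¹ : MulAut Γ) : Out Γ)
  rw [QuotientGroup.eq]
  refine ⟨c⁻¹, ?_⟩
  rw [_root_.mul_inv_rev, inv_inv]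
  ext x
  simp [MulAut.conj_apply]

end Pool.Agent.SimpleAnosov.H64
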