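import Pool.Agent.H55.SA.Defs

/-!
# Elementary facts on discrete cocompact torsion-free subgroups of `SL(2, ℝ)`
-/

open Matrix MatrixGroups Topology Filter Set

namespace Pool.Agent.SimpleAnosov.H64

/-! ### entries -/

lemma sl_ext {g h : SL(2, ℝ)} (h00 : g 0 0 = h 0 0) (h01 : g 0 1 = h 0 1) (h10 : g 1 0 = h 1 0)
    (h11 : g 1 1 = h 1 1) : g = h := by
  apply Matrix.SpecialLinearGroup.ext
  intro i j
  fin_cases i <;> fin_cases j <;> assumption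

lemma sl_det (g : SL(2, ℝ)) : g 0 0 * g 1 1 - g 0 1 * g 1 0 = 1 := by
  have := g.2
  rwa [Matrix.det_fin_two] at this

lemma m00 (g h : SL(2, ℝ)) : (g * h) 0 0 = g 0 0 * h 0 0 + g 0 1 * h 1 0 := by
  rw [Matrix.SpecialLinearGroup.coe_mul, Matrix.mul_apply, Fin.sum_univ_two]
lemma m01 (g h : SL(2, ℝ)) : (g * h) 0 1 = g 0 0 * h 0 1 + g 0 1 * h 1 1 := by
  rw [Matrix.SpecialLinearGroup.coe_mul, Matrix.mul_apply, Fin.sum_univ_two]
lemma m10 (g h : SL(2, ℝ)) : (g * h) 1 0 = g 1 0 * h 0 0 + g 1 1 * h 1 0 := by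
  rw [Matrix.SpecialLinearGroup.coe_mul, Matrix.mul_apply, Fin.sum_univ_two]
lemma m11 (g h : SL(2, ℝ)) : (g * h) 1 1 = g 1 0 * h 0 1 + g 1 1 * h 1 1 := by
  rw [Matrix.SpecialLinearGroup.coe_mul, Matrix.mul_apply, Fin.sum_univ_two]

lemma i00 (g : SL(2, ℝ)) : g⁻¹ 0 0 = g 1 1 := by
  rw [Matrix.SpecialLinearGroup.SL2_inv_expl]; rfl
lemma i01 (g : SL(2, ℝ)) : g⁻¹ 0 1 = -g 0 1 := by
  rw [Matrix.SpecialLinearGroup.SL2_inv_expl]; rfl
lemma i10 (g : SL(2, ℝ)) : g⁻¹ 1 0 = -g 1 0 := by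
  rw [Matrix.SpecialLinearGroup.SL2_inv_expl]; rfl
lemma i11 (g : SL(2, ℝ)) : g⁻¹ 1 1 = g 0 0 := by
  rw [Matrix.SpecialLinearGroup.SL2_inv_expl]; rfl

lemma n00 (g : SL(2, ℝ)) : (-g) 0 0 = -g 0 0 := rfl
lemma n01 (g : SL(2, ℝ)) : (-g) 0 1 = -g 0 1 := rfl
lemma n10 (g : SL(2, ℝ)) : (-g) 1 0 = -g 1 0 := rfl
lemma n11 (g : SL(2, ℝ)) : (-g) 1 1 = -g 1 1 := rfl

lemma o00 : (1 : SL(2, ℝ)) 0 0 = 1 := rfl
lemma o01 : (1 : SL(2, ℝ)) 0 1 = 0 := rfl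
lemma o10 : (1 : SL(2, ℝ)) 1 0 = 0 := rfl
lemma o11 : (1 : SL(2, ℝ)) 1 1 = 1 := rfl

lemma g00 (t : ℝ) : geo t 0 0 = Real.exp (t / 2) := rfl
lemma g01 (t : ℝ) : geo t 0 1 = 0 := rfl
lemma g10 (t : ℝ) : geo t 1 0 = 0 := rfl
lemma g11 (t : ℝ) : geo t 1 1 = Real.exp (-(t / 2)) := rfl

lemma geo_add (s t : ℝ) : geo (s + t) = geo s * geo t := by
  apply sl_ext
  · rw [m00, g00, g00, g00, g01, zero_mul, add_zero, ← Real.exp_add]; congr 1; ring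
  · rw [m01, g01, g01, g01]; ring
  · rw [m10, g10, g10, g10]; ring
  · rw [m11, g11, g11, g11, g10, zero_mul, zero_add, ← Real.exp_add]; congr 1; ring

lemma geo_zero : geo 0 = 1 := by
  apply sl_ext
  · rw [g00, o00]; simp
  · rw [g01, o01]
  · rw [g10, o10]
  · rw [g11, o11]; simp

lemma geo_neg (t : ℝ) : geo (-t) = (geo t)⁻¹ := by
  rw [eq_inv_iff_mul_eq_one, ← geo_add, neg_add_cancel, geo_zero]

/-- rotations -/
noncomputable def rot (θ : ℝ) : SL(2, ℝ) :=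
  ⟨!![Real.cos θ, -Real.sin θ; Real.sin θ, Real.cos θ], by
    rw [Matrix.det_fin_two_of]; nlinarith [Real.sin_sq_add_cos_sq θ]⟩

/-- upper triangular unipotents -/
noncomputable def upp (x : ℝ) : SL(2, ℝ) :=
  ⟨!![1, x; 0, 1], by rw [Matrix.det_fin_two_of]; simp⟩

/-- diagonal matrices -/
noncomputable def dia (a : ℝ) (ha : a ≠ 0) : SL(2, ℝ) :=
  ⟨!![a, 0; 0, a⁻¹], by rw [Matrix.det_fin_two_of]; field_simp; ring⟩

lemma d00 (a : ℝ) (ha : a ≠ 0) : dia a ha 0 0 = a := rfl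
lemma d01 (a : ℝ) (ha : a ≠ 0) : dia a ha 0 1 = 0 := rfl
lemma d10 (a : ℝ) (ha : a ≠ 0) : dia a ha 1 0 = 0 := rfl
lemma d11 (a : ℝ) (ha : a ≠ 0) : dia a ha 1 1 = a⁻¹ := rfl

lemma r00 (t : ℝ) : rot t 0 0 = Real.cos t := rfl
lemma r01 (t : ℝ) : rot t 0 1 = -Real.sin t := rfl
lemma r10 (t : ℝ) : rot t 1 0 = Real.sin t := rfl
lemma r11 (t : ℝ) : rot t 1 1 = Real.cos t := rfl

lemma u00 (t : ℝ) : upp t 0 0 = 1 := rfl
lemma u01 (t : ℝ) : upp t 0 1 = t := rfl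
lemma u10 (t : ℝ) : upp t 1 0 = 0 := rfl
lemma u11 (t : ℝ) : upp t 1 1 = 1 := rfl

/-- the trace -/
noncomputable def tr (g : SL(2, ℝ)) : ℝ := (g : Matrix (Fin 2) (Fin 2) ℝ).trace

lemma tr_eq (g : SL(2, ℝ)) : tr g = g 0 0 + g 1 1 := Matrix.trace_fin_two _

lemma tr_neg (g : SL(2, ℝ)) : tr (-g) = - tr g := by
  rw [tr_eq, tr_eq, n00, n11]; ring

lemma tr_conj (g h : SL(2, ℝ)) : tr (h * g * h⁻¹) = tr g := by
  rw [tr_eq, tr_eq, m00, m11, m00, m11, m01, m10, i00, i01, i10, i11]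
  linear_combination (g 0 0 + g 1 1) * sl_det h

lemma tr_inv (g : SL(2, ℝ)) : tr g⁻¹ = tr g := by
  rw [tr_eq, tr_eq, i00, i11]; ring

lemma tr_mul_comm (g h : SL(2, ℝ)) : tr (g * h) = tr (h * g) := by
  rw [tr_eq, tr_eq, m00, m11, m00, m11]; ring

lemma tr_skein (g h : SL(2, ℝ)) : tr h = tr g * tr (g⁻¹ * h) - tr (g * h⁻¹ * g) := by
  rw [tr_eq, tr_eq, tr_eq, tr_eq, m00, m11, m00, m11, m00, m01, m10, m11, i00, i01, i10, i11,
    i00, i01, i10, i11]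
  linear_combination (-(h 0 0 + h 1 1)) * sl_det g

lemma tr_one : tr 1 = 2 := by rw [tr_eq, o00, o11]; norm_num

/-! ### compactness and finiteness -/

/-- the entries of `g` are bounded by `B` -/
def Bdd (B : ℝ) (g : SL(2, ℝ)) : Prop := ∀ i j, |g i j| ≤ B

lemma isCompact_bdd (B : ℝ) : IsCompact {g : SL(2, ℝ) | Bdd B g} := by
  let : SeminormedAddCommGroup (Matrix (Fin 2) (Fin 2) ℝ) := Matrix.seminormedAddCommGroup
  have : ProperSpace (Matrix (Fin 2) (Fin 2) ℝ) := pi_properSpace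
  have h1 : IsCompact {m : Matrix (Fin 2) (Fin 2) ℝ | ∀ i j, |m i j| ≤ B} := by
    have : {m : Matrix (Fin 2) (Fin 2) ℝ | ∀ i j, |m i j| ≤ B} =
        Set.pi Set.univ (fun _ => Set.pi Set.univ (fun _ => Set.Icc (-B) B)) := by
      ext m
      constructor
      · intro h i _ j _
        exact abs_le.mp (h i j)
      · intro h i j
        exact abs_le.mpr (h i trivial j trivial)
    rw [this]
    exact isCompact_univ_pi (fun _ => isCompact_univ_pi (fun _ => isCompact_Icc))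
  exact Matrix.SpecialLinearGroup.isClosedEmbedding_val.isCompact_preimage h1

lemma exists_bdd {K : Set SL(2, ℝ)} (hK : IsCompact K) : ∃ B : ℝ, 1 ≤ B ∧ ∀ k ∈ K, Bdd B k := by
  have h1 : ∀ i j, ∃ B : ℝ, ∀ k ∈ K, |k i j| ≤ B := by
    intro i j
    have hc : Continuous (fun k : SL(2, ℝ) => |k i j|) := by
      have h2 : Continuous (fun k : SL(2, ℝ) => (k : Matrix (Fin 2) (Fin 2) ℝ)) :=
        Matrix.SpecialLinearGroup.isClosedEmbedding_val.continuous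
      exact (h2.matrix_elem i j).abs
    obtain ⟨B, hB⟩ := (hK.image hc).bddAbove
    exact ⟨B, fun k hk => hB ⟨k, hk, rfl⟩⟩
  choose B hB using h1
  refine ⟨max 1 (max (max (B 0 0) (B 0 1)) (max (B 1 0) (B 1 1))), le_max_left _ _, ?_⟩
  intro k hk i j
  have := hB i j k hk
  fin_cases i <;> fin_cases j <;> simp at this ⊢ <;> simp [this]

lemma tendsto_sl {α : Type*} {l : Filter α} {f : α → SL(2, ℝ)} {g : SL(2, ℝ)}
    (h : ∀ i j, Tendsto (fun n => (f n) i j) l (𝓝 (g i j))) : Tendsto f l (𝓝 g) := by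
  have h1 : Tendsto (fun n => (f n : Matrix (Fin 2) (Fin 2) ℝ)) l (𝓝 (g : Matrix (Fin 2) (Fin 2) ℝ)) :=
    tendsto_pi_nhds.mpr fun i => tendsto_pi_nhds.mpr fun j => h i j
  exact (Matrix.SpecialLinearGroup.isClosedEmbedding_val.isInducing.tendsto_nhds_iff).mpr h1

variable {Γ : Subgroup SL(2, ℝ)}

lemma sg_finite_bdd (hΓ : IsSurfaceGroup Γ) (B : ℝ) :
    {g : SL(2, ℝ) | g ∈ Γ ∧ Bdd B g}.Finite := by
  have := hΓ.discrete
  have hcl : IsClosed (Γ : Set SL(2, ℝ)) := Subgroup.isClosed_of_discrete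
  have h1 : IsCompact ({g : SL(2, ℝ) | Bdd B g} ∩ (Γ : Set SL(2, ℝ))) :=
    (isCompact_bdd B).inter_right hcl
  have hd : IsDiscrete (Γ : Set SL(2, ℝ)) := isDiscrete_iff_discreteTopology.mpr hΓ.discrete
  have h2 := h1.finite (hd.mono Set.inter_subset_right)
  refine h2.subset ?_
  intro g hg
  exact ⟨hg.2, hg.1⟩

lemma sg_finite_inter (hΓ : IsSurfaceGroup Γ) {C : Set SL(2, ℝ)} (hC : IsCompact C) :
    {g : SL(2, ℝ) | g ∈ Γ ∧ g ∈ C}.Finite := by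
  obtain ⟨B, _, hB⟩ := exists_bdd hC
  exact (sg_finite_bdd hΓ B).subset fun g hg => ⟨hg.1, hB g hg.2⟩

lemma sg_neg_one_notMem (hΓ : IsSurfaceGroup Γ) : (-1 : SL(2, ℝ)) ∉ Γ := by
  intro h
  have h1 := hΓ.torsionFree (-1) h 2 (by norm_num) (by simp)
  have h2 : (-1 : SL(2, ℝ)) 0 0 = (1 : SL(2, ℝ)) 0 0 := by rw [h1]
  rw [n00, o00] at h2
  norm_num at h2

end Pool.Agent.SimpleAnosov.H64
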