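import Pool.Agent.H64.SA.Hyp

/-!
# Existence of a surface group

The units congruent to `1` modulo `3` of the order `ℤ⟨i, j⟩`, `i² = -1`, `j² = 3`, form a discrete
torsion-free cocompact subgroup of `SL(2, ℝ)`.
-/

open Matrix MatrixGroups Topology Filter Set MeasureTheory

set_option linter.unusedSimpArgs false

namespace Pool.Agent.SimpleAnosov.H64

/-- the quaternion `a + b i + c j + d i j` as a real matrix -/
noncomputable def XM (a b c d : ℝ) : Matrix (Fin 2) (Fin 2) ℝ :=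
  !![a + c * √3, b - d * √3; -b - d * √3, a - c * √3]

lemma XM00 (a b c d : ℝ) : XM a b c d 0 0 = a + c * √3 := rfl
lemma XM01 (a b c d : ℝ) : XM a b c d 0 1 = b - d * √3 := rfl
lemma XM10 (a b c d : ℝ) : XM a b c d 1 0 = -b - d * √3 := rfl
lemma XM11 (a b c d : ℝ) : XM a b c d 1 1 = a - c * √3 := rfl

lemma sq3 : (√3 : ℝ) ^ 2 = 3 := Real.sq_sqrt (by norm_num)

lemma mat_ext {M N : Matrix (Fin 2) (Fin 2) ℝ} (h00 : M 0 0 = N 0 0) (h01 : M 0 1 = N 0 1)
    (h10 : M 1 0 = N 1 0) (h11 : M 1 1 = N 1 1) : M = N := by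
  ext i j
  fin_cases i <;> fin_cases j <;> assumption

lemma XM_mul (a b c d a' b' c' d' : ℝ) : XM a b c d * XM a' b' c' d' =
    XM (a * a' - b * b' + 3 * c * c' + 3 * d * d') (a * b' + b * a' - 3 * c * d' + 3 * d * c')
      (a * c' + c * a' + d * b' - b * d') (a * d' + d * a' + b * c' - c * b') := by
  have h := sq3
  apply mat_ext
  · rw [Matrix.mul_apply, Fin.sum_univ_two, XM00, XM01, XM00, XM10, XM00]
    linear_combination (c * c' + d * d') * h
  · rw [Matrix.mul_apply, Fin.sum_univ_two, XM00, XM01, XM01, XM11, XM01]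
    linear_combination (-c * d' + d * c') * h
  · rw [Matrix.mul_apply, Fin.sum_univ_two, XM10, XM11, XM00, XM10, XM10]
    linear_combination (-d * c' + c * d') * h
  · rw [Matrix.mul_apply, Fin.sum_univ_two, XM10, XM11, XM01, XM11, XM11]
    linear_combination (d * d' + c * c') * h

lemma XM_det (a b c d : ℝ) : (XM a b c d).det = a ^ 2 + b ^ 2 - 3 * c ^ 2 - 3 * d ^ 2 := by
  rw [Matrix.det_fin_two, XM00, XM01, XM10, XM11]
  linear_combination (-c ^ 2 - d ^ 2) * sq3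

/-! ### anisotropy -/

lemma three_dvd {a b : ℤ} (h : (3:ℤ) ∣ a ^ 2 + b ^ 2) : (3:ℤ) ∣ a ∧ (3:ℤ) ∣ b := by
  have h1 : a % 3 = 0 ∨ a % 3 = 1 ∨ a % 3 = 2 := by omega
  have h2 : b % 3 = 0 ∨ b % 3 = 1 ∨ b % 3 = 2 := by omega
  have h3 : (a ^ 2 + b ^ 2) % 3 = 0 := Int.emod_eq_zero_of_dvd h
  have h4 : (a ^ 2 + b ^ 2) % 3 = ((a % 3) ^ 2 + (b % 3) ^ 2) % 3 := by
    rw [Int.add_emod, pow_two, pow_two, Int.mul_emod a, Int.mul_emod b, ← Int.add_emod]
    ring_nf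
  rw [h4] at h3
  constructor
  · rcases h1 with h1 | h1 | h1 <;> rcases h2 with h2 | h2 | h2 <;> rw [h1, h2] at h3 <;>
      omega
  · rcases h1 with h1 | h1 | h1 <;> rcases h2 with h2 | h2 | h2 <;> rw [h1, h2] at h3 <;>
      omega

lemma aniso_aux (n : ℕ) : ∀ a b c d : ℤ, a.natAbs + b.natAbs + c.natAbs + d.natAbs ≤ n →
    a ^ 2 + b ^ 2 = 3 * (c ^ 2 + d ^ 2) → a = 0 ∧ b = 0 ∧ c = 0 ∧ d = 0 := by
  induction n using Nat.strong_induction_on with
  | _ n ih =>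
    intro a b c d hn h
    obtain ⟨⟨a', rfl⟩, ⟨b', rfl⟩⟩ := three_dvd (a := a) (b := b) ⟨c ^ 2 + d ^ 2, h⟩
    have h2 : c ^ 2 + d ^ 2 = 3 * (a' ^ 2 + b' ^ 2) := by
      have : 3 * (c ^ 2 + d ^ 2) = 3 * (3 * (a' ^ 2 + b' ^ 2)) := by rw [← h]; ring
      linarith
    by_cases h0 : a' = 0 ∧ b' = 0
    · obtain ⟨rfl, rfl⟩ := h0
      have h3 : c ^ 2 + d ^ 2 = 0 := by rw [h2]; ring
      have hc : c ^ 2 = 0 := le_antisymm (by nlinarith [sq_nonneg d]) (sq_nonneg _)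
      have hd : d ^ 2 = 0 := le_antisymm (by nlinarith [sq_nonneg c]) (sq_nonneg _)
      exact ⟨by ring, by ring, pow_eq_zero_iff (two_ne_zero) |>.mp hc, pow_eq_zero_iff (two_ne_zero) |>.mp hd⟩
    · have hlt : c.natAbs + d.natAbs + a'.natAbs + b'.natAbs < n := by
        have : 0 < a'.natAbs ∨ 0 < b'.natAbs := by
          by_contra hc
          push Not at hc
          apply h0
          constructor <;> omega
        rw [Int.natAbs_mul, Int.natAbs_mul] at hn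
        have e3 : (3:ℤ).natAbs = 3 := rfl
        rw [e3] at hn
        omega
      obtain ⟨h3, h4, h5, h6⟩ := ih _ hlt c d a' b' le_rfl h2
      exact ⟨by rw [h5]; ring, by rw [h6]; ring, h3, h4⟩

lemma aniso {a b c d : ℤ} (h : a ^ 2 + b ^ 2 - 3 * c ^ 2 - 3 * d ^ 2 = 0) :
    a = 0 ∧ b = 0 ∧ c = 0 ∧ d = 0 :=
  aniso_aux _ a b c d le_rfl (by linarith)

/-! ### the group -/

/-- the congruence subgroup -/
noncomputable def Γq : Subgroup SL(2, ℝ) where
  carrier := {g | ∃ a b c d : ℤ, (g : Matrix (Fin 2) (Fin 2) ℝ) =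
    XM (1 + 3 * a) (3 * b) (3 * c) (3 * d)}
  one_mem' := ⟨0, 0, 0, 0, by
    apply mat_ext
    · rw [XM00]; simp
    · rw [XM01]; simp
    · rw [XM10]; simp
    · rw [XM11]; simp⟩
  mul_mem' := by
    rintro g h ⟨a, b, c, d, hg⟩ ⟨a', b', c', d', hh⟩
    refine ⟨a + a' + 3 * a * a' - 3 * b * b' + 9 * c * c' + 9 * d * d',
      b + b' + 3 * a * b' + 3 * b * a' - 9 * c * d' + 9 * d * c',
      c + c' + 3 * a * c' + 3 * c * a' + 3 * d * b' - 3 * b * d',
      d + d' + 3 * a * d' + 3 * d * a' + 3 * b * c' - 3 * c * b', ?_⟩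
    rw [Matrix.SpecialLinearGroup.coe_mul, hg, hh, XM_mul]
    congr 1 <;> push_cast <;> ring
  inv_mem' := by
    rintro g ⟨a, b, c, d, hg⟩
    refine ⟨a, -b, -c, -d, ?_⟩
    have e00 : g 0 0 = 1 + 3 * a + 3 * c * √3 := by rw [hg, XM00]
    have e01 : g 0 1 = 3 * b - 3 * d * √3 := by rw [hg, XM01]
    have e10 : g 1 0 = -(3 * b) - 3 * d * √3 := by rw [hg, XM10]
    have e11 : g 1 1 = 1 + 3 * a - 3 * c * √3 := by rw [hg, XM11]
    apply mat_ext
    · show g⁻¹ 0 0 = _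
      rw [i00, e11, XM00]; push_cast; ring
    · show g⁻¹ 0 1 = _
      rw [i01, e01, XM01]; push_cast; ring
    · show g⁻¹ 1 0 = _
      rw [i10, e10, XM10]; push_cast; ring
    · show g⁻¹ 1 1 = _
      rw [i11, e00, XM11]; push_cast; ring

lemma mem_Γq {g : SL(2, ℝ)} : g ∈ Γq ↔ ∃ a b c d : ℤ, (g : Matrix (Fin 2) (Fin 2) ℝ) =
    XM (1 + 3 * a) (3 * b) (3 * c) (3 * d) := Iff.rfl

/-- an element of the group close to `1` is `1` -/
lemma Γq_eq_one {g : SL(2, ℝ)} (hg : g ∈ Γq) (h00 : |g 0 0 - 1| < 1) (h01 : |g 0 1| < 1)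
    (h10 : |g 1 0| < 1) (h11 : |g 1 1 - 1| < 1) : g = 1 := by
  obtain ⟨a, b, c, d, hg⟩ := hg
  have e00 : g 0 0 = 1 + 3 * a + 3 * c * √3 := by rw [hg, XM00]
  have e01 : g 0 1 = 3 * b - 3 * d * √3 := by rw [hg, XM01]
  have e10 : g 1 0 = -(3 * b) - 3 * d * √3 := by rw [hg, XM10]
  have e11 : g 1 1 = 1 + 3 * a - 3 * c * √3 := by rw [hg, XM11]
  rw [e00, abs_lt] at h00
  rw [e01, abs_lt] at h01
  rw [e10, abs_lt] at h10
  rw [e11, abs_lt] at h11
  have hs : 1 < √3 := by rw [Real.lt_sqrt (by norm_num)]; norm_num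
  have ha : a = 0 := by
    have h1 : (a:ℝ) < 1 := by linarith [h00.2, h11.2]
    have h2 : (-1:ℝ) < a := by linarith [h00.1, h11.1]
    have h1' : a < 1 := by exact_mod_cast h1
    have h2' : -1 < a := by exact_mod_cast h2
    omega
  have hb : b = 0 := by
    have h1 : (b:ℝ) < 1 := by linarith [h01.2, h10.1]
    have h2 : (-1:ℝ) < b := by linarith [h01.1, h10.2]
    have h1' : b < 1 := by exact_mod_cast h1
    have h2' : -1 < b := by exact_mod_cast h2
    omega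
  have hc : c = 0 := by
    have h1 : (c:ℝ) < 1 := by
      by_contra hcon
      push Not at hcon
      nlinarith [h00.2, h11.1]
    have h2 : (-1:ℝ) < c := by
      by_contra hcon
      push Not at hcon
      nlinarith [h00.1, h11.2]
    have h1' : c < 1 := by exact_mod_cast h1
    have h2' : -1 < c := by exact_mod_cast h2
    omega
  have hd : d = 0 := by
    have h1 : (d:ℝ) < 1 := by
      by_contra hcon
      push Not at hcon
      nlinarith [h01.1, h10.1]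
    have h2 : (-1:ℝ) < d := by
      by_contra hcon
      push Not at hcon
      nlinarith [h01.2, h10.2]
    have h1' : d < 1 := by exact_mod_cast h1
    have h2' : -1 < d := by exact_mod_cast h2
    omega
  apply sl_ext
  · rw [e00, ha, hc, o00]; simp
  · rw [e01, hb, hd, o01]; simp
  · rw [e10, hb, hd, o10]; simp
  · rw [e11, ha, hc, o11]; simp

lemma Γq_discrete : DiscreteTopology Γq := by
  apply discreteTopology_of_isOpen_singleton_one
  have hU : IsOpen {g : SL(2, ℝ) | |g 0 0 - 1| < 1 ∧ |g 0 1| < 1 ∧ |g 1 0| < 1 ∧ |g 1 1 - 1| < 1} := by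
    have hv : Continuous (fun k : SL(2, ℝ) => (k : Matrix (Fin 2) (Fin 2) ℝ)) :=
      Matrix.SpecialLinearGroup.isClosedEmbedding_val.continuous
    have h00 : Continuous (fun k : SL(2, ℝ) => k 0 0) := hv.matrix_elem 0 0
    have h01 : Continuous (fun k : SL(2, ℝ) => k 0 1) := hv.matrix_elem 0 1
    have h10 : Continuous (fun k : SL(2, ℝ) => k 1 0) := hv.matrix_elem 1 0
    have h11 : Continuous (fun k : SL(2, ℝ) => k 1 1) := hv.matrix_elem 1 1
    exact (isOpen_lt (h00.sub continuous_const).abs continuous_const).inter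
      ((isOpen_lt h01.abs continuous_const).inter ((isOpen_lt h10.abs continuous_const).inter
        (isOpen_lt (h11.sub continuous_const).abs continuous_const)))
  have h1 : ({1} : Set Γq) = Subtype.val ⁻¹' {g : SL(2, ℝ) | |g 0 0 - 1| < 1 ∧ |g 0 1| < 1 ∧
      |g 1 0| < 1 ∧ |g 1 1 - 1| < 1} := by
    ext g
    constructor
    · intro hg
      rw [Set.mem_singleton_iff.mp hg]
      show |(1 : SL(2, ℝ)) 0 0 - 1| < 1 ∧ |(1 : SL(2, ℝ)) 0 1| < 1 ∧
        |(1 : SL(2, ℝ)) 1 0| < 1 ∧ |(1 : SL(2, ℝ)) 1 1 - 1| < 1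
      rw [o00, o01, o10, o11]; norm_num
    · rintro ⟨a1, a2, a3, a4⟩
      exact Subtype.ext (Γq_eq_one g.2 a1 a2 a3 a4)
  rw [h1]
  exact hU.preimage continuous_subtype_val

lemma Γq_torsionFree : ∀ γ ∈ Γq, ∀ n : ℕ, 0 < n → γ ^ n = 1 → γ = 1 := by
  intro g hg n hn hpow
  -- the trace is at most two in absolute value
  have htr : |tr g| ≤ 2 := by
    by_contra hc
    push Not at hc
    obtain ⟨h, a, x, ha0, ha1, k00, k01, k10, k11⟩ := exists_triangular hc.le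
    have gen : ∀ T : SL(2, ℝ), T 0 0 = a → T 1 0 = 0 → ∀ m : ℕ, (T ^ m) 0 0 = a ^ m ∧ (T ^ m) 1 0 = 0 := by
      intro T hT hT' m
      induction m with
      | zero => rw [pow_zero, pow_zero, o00, o10]; exact ⟨rfl, rfl⟩
      | succ m ih =>
        rw [pow_succ, m00, m10, ih.1, ih.2, hT, hT', pow_succ]
        constructor <;> ring
    have hpow' := gen (h⁻¹ * g * h) k00 k10
    have h1 : (h⁻¹ * g * h) ^ n = 1 := by
      have : (h⁻¹ * g * h) ^ n = h⁻¹ * g ^ n * h := by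
        have := conj_pow (i := n) (a := h⁻¹) (b := g)
        rwa [inv_inv] at this
      rw [this, hpow]; group
    have h2 := (hpow' n).1
    rw [h1, o00] at h2
    have h3 : |a| ^ n = 1 := by rw [← abs_pow, ← h2, abs_one]
    have h4 : |a| = 1 := by
      rcases ha1.lt_or_eq with h5 | h5
      · have := one_lt_pow₀ h5 (by omega : n ≠ 0)
        linarith
      · exact h5.symm
    have htr : tr g = a + a⁻¹ := by
      have := tr_conj g h⁻¹
      rw [inv_inv, tr_eq, k00, k11] at this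
      exact this.symm
    have h5 : a = 1 ∨ a = -1 := by
      rcases abs_choice a with h6 | h6
      · left; rw [← h6, h4]
      · right; rw [h6] at h4; linarith
    rcases h5 with h5 | h5
    · rw [htr, h5] at hc; norm_num at hc
    · rw [htr, h5] at hc; norm_num at hc
  obtain ⟨a, b, c, d, hg'⟩ := mem_Γq.mp hg
  have e00 : g 0 0 = 1 + 3 * a + 3 * c * √3 := by rw [hg', XM00]
  have e01 : g 0 1 = 3 * b - 3 * d * √3 := by rw [hg', XM01]
  have e10 : g 1 0 = -(3 * b) - 3 * d * √3 := by rw [hg', XM10]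
  have e11 : g 1 1 = 1 + 3 * a - 3 * c * √3 := by rw [hg', XM11]
  have ht : tr g = 2 + 6 * a := by rw [tr_eq, e00, e11]; ring
  rw [ht, abs_le] at htr
  have ha : a = 0 := by
    have h1 : (a:ℝ) < 1 := by linarith [htr.2]
    have h2 : (-1:ℝ) < a := by linarith [htr.1]
    have h1' : a < 1 := by exact_mod_cast h1
    have h2' : -1 < a := by exact_mod_cast h2
    omega
  have hdet := sl_det g
  rw [e00, e01, e10, e11, ha] at hdet
  have h3 : ((b:ℝ)) ^ 2 - 3 * c ^ 2 - 3 * d ^ 2 = 0 := by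
    push_cast at hdet
    linear_combination hdet / 9 + (c ^ 2 + d ^ 2) * sq3
  have h4 : (0:ℤ) ^ 2 + b ^ 2 - 3 * c ^ 2 - 3 * d ^ 2 = 0 := by
    have : ((((0:ℤ) ^ 2 + b ^ 2 - 3 * c ^ 2 - 3 * d ^ 2 : ℤ)) : ℝ) = 0 := by push_cast; linarith
    exact_mod_cast this
  obtain ⟨_, hb, hc, hd⟩ := aniso h4
  apply sl_ext
  · rw [e00, ha, hc, o00]; simp
  · rw [e01, hb, hd, o01]; simp
  · rw [e10, hb, hd, o10]; simp
  · rw [e11, ha, hc, o11]; simp

/-! ### a small vector -/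

/-- the coordinates of `g⁻¹ X` in terms of the coordinates of `X` -/
noncomputable def M4 (p q r s : ℝ) : Matrix (Fin 4) (Fin 4) ℝ :=
  !![p, -q, p * √3, -(q * √3);
     q, p, -(q * √3), -(p * √3);
     r, -s, r * √3, -(s * √3);
     s, r, -(s * √3), -(r * √3)]

lemma M4_det (p q r s : ℝ) : (M4 p q r s).det = -12 * (p * s - q * r) ^ 2 := by
  unfold M4
  rw [Matrix.det_succ_row_zero]
  simp [Fin.sum_univ_succ, Matrix.det_fin_three, Fin.succAbove, Matrix.submatrix]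
  have h3 : √3 ^ 2 = (3:ℝ) := sq3
  ring_nf
  rw [h3]
  ring

lemma exists_small (g : SL(2, ℝ)) : ∃ a b c d : ℤ, ¬ (a = 0 ∧ b = 0 ∧ c = 0 ∧ d = 0) ∧
    ∀ i j, |((g⁻¹ : SL(2, ℝ)) * XM a b c d : Matrix (Fin 2) (Fin 2) ℝ) i j| ≤ 2 := by
  set p := g⁻¹ 0 0 with hp
  set q := g⁻¹ 0 1 with hq
  set r := g⁻¹ 1 0 with hr
  set s := g⁻¹ 1 1 with hs
  have hdet : p * s - q * r = 1 := sl_det g⁻¹
  set f : (Fin 4 → ℝ) →ₗ[ℝ] (Fin 4 → ℝ) := Matrix.toLin' (M4 p q r s) with hf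
  have hfd : LinearMap.det f = -12 := by
    rw [hf, LinearMap.det_toLin', M4_det, hdet]; norm_num
  set box : Set (Fin 4 → ℝ) := Set.pi Set.univ (fun _ => Set.Icc (-2:ℝ) 2) with hbox
  set S := f ⁻¹' box with hS
  have hvol : volume S = ENNReal.ofReal (256 / 12) := by
    rw [hS, MeasureTheory.Measure.addHaar_preimage_linearMap volume (by rw [hfd]; norm_num), hfd, hbox,
      MeasureTheory.volume_pi, MeasureTheory.Measure.pi_pi]
    simp only [Real.volume_Icc, Finset.prod_const, Finset.card_univ, Fintype.card_fin]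
    rw [← ENNReal.ofReal_pow (by norm_num), ← ENNReal.ofReal_mul (by positivity)]
    congr 1
    rw [abs_inv]
    norm_num
  have hfund := ZSpan.isAddFundamentalDomain' (Pi.basisFun ℝ (Fin 4)) (volume : Measure (Fin 4 → ℝ))
  have hF : volume (ZSpan.fundamentalDomain (Pi.basisFun ℝ (Fin 4))) = 1 := by
    rw [ZSpan.fundamentalDomain_pi_basisFun, MeasureTheory.volume_pi, MeasureTheory.Measure.pi_pi]
    simp
  have : Countable (Submodule.span ℤ (Set.range (Pi.basisFun ℝ (Fin 4)))).toAddSubgroup := by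
    change Countable (Submodule.span ℤ (Set.range (Pi.basisFun ℝ (Fin 4))))
    infer_instance
  obtain ⟨x, hx0, hxS⟩ := exists_ne_zero_mem_lattice_of_measure_mul_two_pow_lt_measure
    (μ := (volume : Measure (Fin 4 → ℝ))) (s := S) hfund (by
      intro x hx
      have : f x ∈ box := hx
      show f (-x) ∈ box
      rw [map_neg]
      intro i _
      have h1 := this i trivial
      exact ⟨by show (-2:ℝ) ≤ -(f x i); linarith [h1.2], by show -(f x i) ≤ 2; linarith [h1.1]⟩) (by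
      exact (convex_pi fun i _ => convex_Icc _ _).linear_preimage f) (by
      rw [hF, hvol, one_mul, Module.finrank_fin_fun]
      have : (2:ENNReal) ^ 4 = ENNReal.ofReal 16 := by
        rw [show (16:ℝ) = 2 ^ 4 by norm_num, ENNReal.ofReal_pow (by norm_num)]; simp
      rw [this]
      exact (ENNReal.ofReal_lt_ofReal_iff (by norm_num)).mpr (by norm_num))
  -- integer coordinates
  have hint : ∀ i, ∃ n : ℤ, ((x : Fin 4 → ℝ) i) = n := by
    intro i
    have h1 : (x : Fin 4 → ℝ) ∈ Submodule.span ℤ (Set.range (Pi.basisFun ℝ (Fin 4))) := x.2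
    rw [Module.Basis.mem_span_iff_repr_mem] at h1
    obtain ⟨n, hn⟩ := h1 i
    refine ⟨n, ?_⟩
    rw [Pi.basisFun_repr] at hn
    rw [← hn]; rfl
  choose n hn using hint
  have hfx : f (x : Fin 4 → ℝ) ∈ box := hxS
  have hc : ∀ i, |f (x : Fin 4 → ℝ) i| ≤ 2 := fun i => abs_le.mpr (hfx i trivial)
  have hval : ∀ i, f (x : Fin 4 → ℝ) i = M4 p q r s i 0 * n 0 + M4 p q r s i 1 * n 1 +
      M4 p q r s i 2 * n 2 + M4 p q r s i 3 * n 3 := by
    intro i
    rw [hf, Matrix.toLin'_apply, Matrix.mulVec, dotProduct, Fin.sum_univ_four, hn, hn, hn, hn]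
  refine ⟨n 0, n 1, n 2, n 3, ?_, ?_⟩
  · rintro ⟨h0, h1, h2, h3⟩
    apply hx0
    apply Subtype.ext
    funext i
    show (x : Fin 4 → ℝ) i = 0
    rw [hn i]
    fin_cases i
    · show ((n 0 : ℤ) : ℝ) = 0
      rw [h0]; simp
    · show ((n 1 : ℤ) : ℝ) = 0
      rw [h1]; simp
    · show ((n 2 : ℤ) : ℝ) = 0
      rw [h2]; simp
    · show ((n 3 : ℤ) : ℝ) = 0
      rw [h3]; simp
  · intro i j
    fin_cases i <;> fin_cases j
    · show |((g⁻¹ : SL(2, ℝ)) * XM (n 0) (n 1) (n 2) (n 3) : Matrix (Fin 2) (Fin 2) ℝ) 0 0| ≤ 2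
      rw [Matrix.mul_apply, Fin.sum_univ_two, XM00, XM10, ← hp, ← hq]
      have := hc 0
      rw [hval 0] at this
      refine le_trans (le_of_eq ?_) this
      congr 1
      show _ = p * n 0 + -q * n 1 + p * √3 * n 2 + -(q * √3) * n 3
      ring
    · show |((g⁻¹ : SL(2, ℝ)) * XM (n 0) (n 1) (n 2) (n 3) : Matrix (Fin 2) (Fin 2) ℝ) 0 1| ≤ 2
      rw [Matrix.mul_apply, Fin.sum_univ_two, XM01, XM11, ← hp, ← hq]
      have := hc 1
      rw [hval 1] at this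
      refine le_trans (le_of_eq ?_) this
      congr 1
      show _ = q * n 0 + p * n 1 + -(q * √3) * n 2 + -(p * √3) * n 3
      ring
    · show |((g⁻¹ : SL(2, ℝ)) * XM (n 0) (n 1) (n 2) (n 3) : Matrix (Fin 2) (Fin 2) ℝ) 1 0| ≤ 2
      rw [Matrix.mul_apply, Fin.sum_univ_two, XM00, XM10, ← hr, ← hs]
      have := hc 2
      rw [hval 2] at this
      refine le_trans (le_of_eq ?_) this
      congr 1
      show _ = r * n 0 + -s * n 1 + r * √3 * n 2 + -(s * √3) * n 3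
      ring
    · show |((g⁻¹ : SL(2, ℝ)) * XM (n 0) (n 1) (n 2) (n 3) : Matrix (Fin 2) (Fin 2) ℝ) 1 1| ≤ 2
      rw [Matrix.mul_apply, Fin.sum_univ_two, XM01, XM11, ← hr, ← hs]
      have := hc 3
      rw [hval 3] at this
      refine le_trans (le_of_eq ?_) this
      congr 1
      show _ = s * n 0 + r * n 1 + -(s * √3) * n 2 + -(r * √3) * n 3
      ring

/-! ### finitely many classes -/

/-- reduced norm -/
def NN (v : ℤ × ℤ × ℤ × ℤ) : ℤ := v.1 ^ 2 + v.2.1 ^ 2 - 3 * v.2.2.1 ^ 2 - 3 * v.2.2.2 ^ 2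

lemma exists_reps : ∃ M : ℝ, 0 ≤ M ∧ ∀ v : ℤ × ℤ × ℤ × ℤ, NN v ≠ 0 → |NN v| ≤ 8 →
    ∃ w z : ℤ × ℤ × ℤ × ℤ, NN w = NN v ∧ (|(w.1:ℝ)| ≤ M ∧ |(w.2.1:ℝ)| ≤ M ∧ |(w.2.2.1:ℝ)| ≤ M ∧
      |(w.2.2.2:ℝ)| ≤ M) ∧ v.1 = w.1 + 3 * NN v * z.1 ∧ v.2.1 = w.2.1 + 3 * NN v * z.2.1 ∧
      v.2.2.1 = w.2.2.1 + 3 * NN v * z.2.2.1 ∧ v.2.2.2 = w.2.2.2 + 3 * NN v * z.2.2.2 := by
  classical
  set T : Set (ℤ × ℤ × ℤ × ℤ) := {v | NN v ≠ 0 ∧ |NN v| ≤ 8} with hT
  set F : ℤ × ℤ × ℤ × ℤ → ℤ × ℤ × ℤ × ℤ × ℤ := fun v =>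
    (NN v, v.1 % (3 * NN v), v.2.1 % (3 * NN v), v.2.2.1 % (3 * NN v), v.2.2.2 % (3 * NN v)) with hF
  have hfin : (F '' T).Finite := by
    have h1 : (Set.Icc (-24:ℤ) 24 ×ˢ Set.Icc (-24:ℤ) 24 ×ˢ Set.Icc (-24:ℤ) 24 ×ˢ Set.Icc (-24:ℤ) 24 ×ˢ
        Set.Icc (-24:ℤ) 24).Finite :=
      (Set.finite_Icc _ _).prod ((Set.finite_Icc _ _).prod ((Set.finite_Icc _ _).prod
        ((Set.finite_Icc _ _).prod (Set.finite_Icc _ _))))
    refine h1.subset ?_
    rintro _ ⟨v, ⟨h0, h8⟩, rfl⟩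
    have h9 := abs_le.mp h8
    have h3 : 3 * NN v ≠ 0 := by omega
    have hb : ∀ a : ℤ, a % (3 * NN v) ∈ Set.Icc (-24:ℤ) 24 := by
      intro a
      have h4 := Int.emod_nonneg a h3
      have h5 := Int.emod_lt_abs a h3
      have h6 : |3 * NN v| ≤ 24 := by rw [abs_mul]; norm_num; linarith
      exact ⟨by omega, by omega⟩
    exact ⟨⟨by show (-24:ℤ) ≤ NN v; omega, by show NN v ≤ 24; omega⟩, hb _, hb _, hb _, hb _⟩
  obtain ⟨T', hT'T, hbij⟩ := Set.exists_subset_bijOn T F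
  have hT'fin : T'.Finite := by
    apply Set.Finite.of_finite_image _ hbij.injOn
    rw [hbij.image_eq]; exact hfin
  -- a bound
  obtain ⟨M, hM⟩ : ∃ M : ℝ, ∀ w ∈ T', |(w.1:ℝ)| + |(w.2.1:ℝ)| + |(w.2.2.1:ℝ)| + |(w.2.2.2:ℝ)| ≤ M := by
    have h1 := (hT'fin.image (fun w : ℤ × ℤ × ℤ × ℤ =>
      |(w.1:ℝ)| + |(w.2.1:ℝ)| + |(w.2.2.1:ℝ)| + |(w.2.2.2:ℝ)|)).bddAbove
    obtain ⟨M, hM⟩ := h1
    exact ⟨M, fun w hw => hM ⟨w, hw, rfl⟩⟩
  refine ⟨max M 0, le_max_right _ _, ?_⟩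
  intro v hv0 hv8
  have hFv : F v ∈ F '' T := ⟨v, ⟨hv0, hv8⟩, rfl⟩
  obtain ⟨w, hw, hwv⟩ := hbij.surjOn hFv
  have hN : NN w = NN v := congrArg Prod.fst hwv
  have e1 : w.1 % (3 * NN w) = v.1 % (3 * NN v) := congrArg (fun p => p.2.1) hwv
  have e2 : w.2.1 % (3 * NN w) = v.2.1 % (3 * NN v) := congrArg (fun p => p.2.2.1) hwv
  have e3 : w.2.2.1 % (3 * NN w) = v.2.2.1 % (3 * NN v) := congrArg (fun p => p.2.2.2.1) hwv
  have e4 : w.2.2.2 % (3 * NN w) = v.2.2.2 % (3 * NN v) := congrArg (fun p => p.2.2.2.2) hwv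
  rw [hN] at e1 e2 e3 e4
  have hdiv : ∀ a b : ℤ, a % (3 * NN v) = b % (3 * NN v) → ∃ z, b = a + 3 * NN v * z := by
    intro a b h
    obtain ⟨z, hz⟩ := Int.ModEq.dvd (show Int.ModEq (3 * NN v) a b from h)
    exact ⟨z, by linarith⟩
  obtain ⟨z1, hz1⟩ := hdiv _ _ e1
  obtain ⟨z2, hz2⟩ := hdiv _ _ e2
  obtain ⟨z3, hz3⟩ := hdiv _ _ e3
  obtain ⟨z4, hz4⟩ := hdiv _ _ e4
  have hb := hM w hw
  have a1 := abs_nonneg (w.1:ℝ)
  have a2 := abs_nonneg (w.2.1:ℝ)
  have a3 := abs_nonneg (w.2.2.1:ℝ)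
  have a4 := abs_nonneg (w.2.2.2:ℝ)
  have hmax := le_max_left M 0
  exact ⟨w, (z1, z2, z3, z4), hN, ⟨by linarith, by linarith, by linarith, by linarith⟩, hz1, hz2, hz3, hz4⟩

lemma Γq_cocompact : ∃ K : Set SL(2, ℝ), IsCompact K ∧ ∀ g : SL(2, ℝ), ∃ γ ∈ Γq, ∃ k ∈ K, g = γ * k := by
  obtain ⟨M, hM0, hM⟩ := exists_reps
  refine ⟨{k | Bdd (12 * M) k}, isCompact_bdd _, ?_⟩
  intro g
  obtain ⟨a, b, c, d, hne, hsmall⟩ := exists_small g
  set C : Matrix (Fin 2) (Fin 2) ℝ := (g⁻¹ : SL(2, ℝ)) * XM a b c d with hC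
  set N : ℤ := NN (a, b, c, d) with hN
  have hNd : (XM a b c d).det = N := by rw [XM_det, hN]; unfold NN; push_cast; ring
  have hN0 : N ≠ 0 := by
    intro h0
    apply hne
    exact aniso (by rw [hN] at h0; unfold NN at h0; exact h0)
  have hCd : C.det = N := by
    rw [hC, Matrix.det_mul, hNd]
    have : (g⁻¹ : SL(2, ℝ)).1.det = 1 := (g⁻¹ : SL(2, ℝ)).2
    rw [this, one_mul]
  have hN8 : |N| ≤ 8 := by
    have h1 : |(N:ℝ)| ≤ 8 := by
      rw [← hCd, Matrix.det_fin_two]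
      calc |C 0 0 * C 1 1 - C 0 1 * C 1 0| ≤ |C 0 0 * C 1 1| + |C 0 1 * C 1 0| := abs_sub _ _
        _ = |C 0 0| * |C 1 1| + |C 0 1| * |C 1 0| := by rw [abs_mul, abs_mul]
        _ ≤ 2 * 2 + 2 * 2 := by
            gcongr
            · exact hsmall 0 0
            · exact hsmall 1 1
            · exact hsmall 0 1
            · exact hsmall 1 0
        _ = 8 := by norm_num
    exact_mod_cast h1
  obtain ⟨w, z, hNw, ⟨hw1, hw2, hw3, hw4⟩, hz1, hz2, hz3, hz4⟩ := hM (a, b, c, d) hN0 hN8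
  rw [← hN] at hNw hz1 hz2 hz3 hz4
  obtain ⟨a', b', c', d'⟩ := w
  obtain ⟨z0, z1, z2, z3⟩ := z
  simp only at hw1 hw2 hw3 hw4 hz1 hz2 hz3 hz4
  have hNr : (N:ℝ) ≠ 0 := by exact_mod_cast hN0
  have hNw' : (a':ℝ) ^ 2 + b' ^ 2 - 3 * c' ^ 2 - 3 * d' ^ 2 = N := by
    rw [← hNw]; unfold NN; push_cast; ring
  -- the small matrix
  set k' : Matrix (Fin 2) (Fin 2) ℝ := (N:ℝ)⁻¹ • (XM a' b' c' d' * C.adjugate) with hk'
  have hk'd : k'.det = 1 := by
    rw [hk', Matrix.det_smul, Matrix.det_mul, XM_det, hNw', Matrix.det_adjugate, hCd]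
    simp
    field_simp
  set k : SL(2, ℝ) := ⟨k', hk'd⟩ with hk
  -- the group element
  set A : ℤ := z0 * a' + z1 * b' - 3 * z2 * c' - 3 * z3 * d' with hA
  set B : ℤ := -z0 * b' + z1 * a' + 3 * z2 * d' - 3 * z3 * c' with hB
  set E : ℤ := -z0 * c' + z2 * a' - z3 * b' + z1 * d' with hE
  set D : ℤ := -z0 * d' + z3 * a' - z1 * c' + z2 * b' with hD
  have hprod : XM (1 + 3 * A) (3 * B) (3 * E) (3 * D) * XM a' b' c' d' = XM a b c d := by
    rw [XM_mul, hz1, hz2, hz3, hz4, hA, hB, hE, hD]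
    push_cast
    rw [← hNw']
    congr 1 <;> ring
  have hgk : XM (1 + 3 * A) (3 * B) (3 * E) (3 * D) * k' = g := by
    have h1 : XM a b c d = (g : Matrix (Fin 2) (Fin 2) ℝ) * C := by
      rw [hC, ← Matrix.mul_assoc, ← Matrix.SpecialLinearGroup.coe_mul, mul_inv_cancel,
        Matrix.SpecialLinearGroup.coe_one, Matrix.one_mul]
    rw [hk', Matrix.mul_smul, ← Matrix.mul_assoc, hprod, h1, Matrix.mul_assoc, Matrix.mul_adjugate, hCd,
      Matrix.mul_smul, Matrix.mul_one, smul_smul, inv_mul_cancel₀ hNr, one_smul]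
  have hγd : (XM (1 + 3 * A) (3 * B) (3 * E) (3 * D)).det = 1 := by
    have h1 := congrArg Matrix.det hgk
    rw [Matrix.det_mul, hk'd, mul_one] at h1
    rw [h1]; exact g.2
  refine ⟨⟨XM (1 + 3 * A) (3 * B) (3 * E) (3 * D), hγd⟩, ⟨A, B, E, D, rfl⟩, k, ?_, ?_⟩
  · intro i j
    show |k' i j| ≤ 12 * M
    have hN1 : 1 ≤ |(N:ℝ)| := by
      have : 1 ≤ |N| := Int.one_le_abs hN0
      exact_mod_cast this
    have hXb : ∀ i j, |XM a' b' c' d' i j| ≤ 3 * M := by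
      have hs : √3 ≤ (2:ℝ) := by rw [Real.sqrt_le_left (by norm_num)]; norm_num
      have hs0 : (0:ℝ) ≤ √3 := Real.sqrt_nonneg _
      have e : ∀ x y : ℝ, |x| ≤ M → |y| ≤ M → |x + y * √3| ≤ 3 * M := by
        intro x y hx hy
        calc |x + y * √3| ≤ |x| + |y * √3| := abs_add_le _ _
          _ = |x| + |y| * √3 := by rw [abs_mul, abs_of_nonneg hs0]
          _ ≤ M + M * 2 := by gcongr
          _ = 3 * M := by ring
      intro i j
      fin_cases i <;> fin_cases j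
      · show |XM (a':ℝ) b' c' d' 0 0| ≤ _
        rw [XM00]; exact e _ _ hw1 hw3
      · show |XM (a':ℝ) b' c' d' 0 1| ≤ _
        rw [XM01]
        have := e b' (-d') hw2 (by rw [abs_neg]; exact hw4)
        rwa [neg_mul, ← sub_eq_add_neg] at this
      · show |XM (a':ℝ) b' c' d' 1 0| ≤ _
        rw [XM10]
        have := e (-b') (-d') (by rw [abs_neg]; exact hw2) (by rw [abs_neg]; exact hw4)
        rwa [neg_mul, ← sub_eq_add_neg] at this
      · show |XM (a':ℝ) b' c' d' 1 1| ≤ _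
        rw [XM11]
        have := e a' (-c') hw1 (by rw [abs_neg]; exact hw3)
        rwa [neg_mul, ← sub_eq_add_neg] at this
    have hCb : ∀ i j, |C.adjugate i j| ≤ 2 := by
      intro i j
      rw [Matrix.adjugate_fin_two]
      fin_cases i <;> fin_cases j
      · exact hsmall 1 1
      · show |-C 0 1| ≤ 2
        rw [abs_neg]; exact hsmall 0 1
      · show |-C 1 0| ≤ 2
        rw [abs_neg]; exact hsmall 1 0
      · exact hsmall 0 0
    rw [hk', Matrix.smul_apply, smul_eq_mul, abs_mul, abs_inv]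
    have h1 : |(XM a' b' c' d' * C.adjugate) i j| ≤ 12 * M := by
      rw [Matrix.mul_apply, Fin.sum_univ_two]
      calc |XM a' b' c' d' i 0 * C.adjugate 0 j + XM a' b' c' d' i 1 * C.adjugate 1 j|
          ≤ |XM a' b' c' d' i 0 * C.adjugate 0 j| + |XM a' b' c' d' i 1 * C.adjugate 1 j| := abs_add_le _ _
        _ = |XM a' b' c' d' i 0| * |C.adjugate 0 j| + |XM a' b' c' d' i 1| * |C.adjugate 1 j| := by
            rw [abs_mul, abs_mul]
        _ ≤ 3 * M * 2 + 3 * M * 2 := by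
            gcongr
            · exact hXb _ _
            · exact hCb _ _
            · exact hXb _ _
            · exact hCb _ _
        _ = 12 * M := by ring
    calc |(N:ℝ)|⁻¹ * |(XM a' b' c' d' * C.adjugate) i j| ≤ 1 * (12 * M) := by
          gcongr
          exact inv_le_one_of_one_le₀ hN1
      _ = 12 * M := one_mul _
  · apply Subtype.ext
    exact hgk.symm

/-- **There is a surface group.** -/
theorem exists_surfaceGroup : ∃ Γ : Subgroup SL(2, ℝ), IsSurfaceGroup Γ :=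
  ⟨Γq, Γq_discrete, Γq_torsionFree, Γq_cocompact⟩

end Pool.Agent.SimpleAnosov.H64
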