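import Pool.Agent.H64.SA.Hyp

/-!
# Surface groups: finiteness, generation, and skein resolution into simple elements
-/

open Matrix MatrixGroups Topology Filter Set

set_option linter.unusedSimpArgs false

namespace Pool.Agent.SimpleAnosov.H64

variable {Γ : Subgroup SL(2, ℝ)}

/-! ### central signs -/

/-- `z` is `1` or `-1` -/
def IsC (z : SL(2, ℝ)) : Prop := z = 1 ∨ z = -1

lemma IsC.one : IsC 1 := Or.inl rfl
lemma IsC.neg : IsC (-1) := Or.inr rfl

lemma IsC.comm {z : SL(2, ℝ)} (hz : IsC z) (g : SL(2, ℝ)) : z * g = g * z := by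
  rcases hz with h | h <;> rw [h] <;> simp

lemma IsC.mul {z w : SL(2, ℝ)} (hz : IsC z) (hw : IsC w) : IsC (z * w) := by
  rcases hz with h | h <;> rcases hw with h' | h' <;> rw [h, h'] <;> simp [IsC]

lemma IsC.inv {z : SL(2, ℝ)} (hz : IsC z) : IsC z⁻¹ := by
  rcases hz with h | h <;> rw [h] <;> simp [IsC]

lemma IsC.pow {z : SL(2, ℝ)} (hz : IsC z) (n : ℕ) : IsC (z ^ n) := by
  induction n with
  | zero => rw [pow_zero]; exact IsC.one
  | succ n ih => rw [pow_succ]; exact ih.mul hz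

lemma IsC.zpow {z : SL(2, ℝ)} (hz : IsC z) (n : ℤ) : IsC (z ^ n) := by
  cases n with
  | ofNat n => rw [Int.ofNat_eq_natCast, zpow_natCast]; exact hz.pow n
  | negSucc n => rw [zpow_negSucc]; exact (hz.pow _).inv

lemma IsC.tr {z : SL(2, ℝ)} (hz : IsC z) (g : SL(2, ℝ)) : |tr (z * g)| = |tr g| := by
  rcases hz with h | h <;> rw [h]
  · rw [one_mul]
  · rw [neg_one_mul, tr_neg, abs_neg]

lemma coe_smul_eq (g : SL(2, ℝ)) (z : UpperHalfPlane) :
    ((g • z : UpperHalfPlane) : ℂ) = ((g 0 0 : ℂ) * z + g 0 1) / ((g 1 0 : ℂ) * z + g 1 1) :=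
  UpperHalfPlane.coe_specialLinearGroup_apply g z

lemma neg_smul' (g : SL(2, ℝ)) (z : UpperHalfPlane) : (-g) • z = g • z := by
  ext1
  rw [coe_smul_eq, coe_smul_eq, n00, n01, n10, n11, ← neg_div_neg_eq]
  push_cast
  congr 1 <;> ring

lemma IsC.smul {z : SL(2, ℝ)} (hz : IsC z) (g : SL(2, ℝ)) (x : UpperHalfPlane) :
    (z * g) • x = g • x := by
  rcases hz with h | h <;> rw [h]
  · rw [one_mul]
  · rw [neg_one_mul, neg_smul']

/-- the two forms of the axis relation -/
lemma axis_iff {γ h : SL(2, ℝ)} {l : ℝ} : (γ * h = h * geo l ∨ γ * h = -(h * geo l)) ↔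
    ∃ z, IsC z ∧ γ * h = z * (h * geo l) := by
  constructor
  · rintro (h1 | h1)
    · exact ⟨1, IsC.one, by rw [h1, one_mul]⟩
    · exact ⟨-1, IsC.neg, by rw [h1, neg_one_mul]⟩
  · rintro ⟨z, h1 | h1, h2⟩
    · left; rw [h2, h1, one_mul]
    · right; rw [h2, h1, neg_one_mul]

/-! ### finiteness -/

theorem finite_classes (hΓ : IsSurfaceGroup Γ) (M : ℝ) :
    ∃ Y : Set Γ, Y.Finite ∧ ∀ γ : Γ, |tr (γ : SL(2, ℝ))| ≤ M → ∃ y ∈ Y, ∃ δ : Γ, γ = δ * y * δ⁻¹ := by
  obtain ⟨K, hK, hcov⟩ := hΓ.cocompact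
  obtain ⟨B, hB1, hB⟩ := exists_bdd hK
  refine ⟨{y : Γ | Bdd (B ^ 2 * M) (y : SL(2, ℝ))}, ?_, ?_⟩
  · have h1 := sg_finite_bdd hΓ (B ^ 2 * M)
    have h2 : {y : Γ | Bdd (B ^ 2 * M) (y : SL(2, ℝ))} =
        (fun y : Γ => (y : SL(2, ℝ))) ⁻¹' {g | g ∈ Γ ∧ Bdd (B ^ 2 * M) g} := by
      ext y
      constructor
      · intro h; exact ⟨y.2, h⟩
      · intro h; exact h.2
    rw [h2]
    exact h1.preimage Subtype.val_injective.injOn
  · intro γ hM
    by_cases hγ : (γ : SL(2, ℝ)) = 1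
    · rw [hγ, tr_one, abs_of_pos (by norm_num)] at hM
      refine ⟨γ, ?_, 1, by simp⟩
      intro i j
      rw [hγ]
      have := one_entry_le i j
      nlinarith [one_le_pow₀ hB1 (n := 2)]
    · obtain ⟨h, l, hl, hax, htr⟩ := sg_hyperbolic hΓ γ.2 hγ
      obtain ⟨z, hz, hax⟩ := axis_iff.mp hax
      obtain ⟨δ, hδ, k, hk, hδk⟩ := hcov h
      have hconj : δ⁻¹ * γ * δ = z * (k * geo l * k⁻¹) := by
        have e1 : (γ : SL(2, ℝ)) = z * (h * geo l) * h⁻¹ := by rw [← hax]; group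
        rw [e1, hδk]
        have e2 := hz.comm δ⁻¹
        calc δ⁻¹ * (z * (δ * k * geo l) * (δ * k)⁻¹) * δ = (δ⁻¹ * z) * (δ * k * geo l * (δ * k)⁻¹ * δ) := by group
          _ = (z * δ⁻¹) * (δ * k * geo l * (δ * k)⁻¹ * δ) := by rw [e2]
          _ = z * (k * geo l * k⁻¹) := by group
      refine ⟨⟨δ⁻¹ * γ * δ, Γ.mul_mem (Γ.mul_mem (Γ.inv_mem hδ) γ.2) hδ⟩, ?_, ⟨δ, hδ⟩, ?_⟩
      · show Bdd (B ^ 2 * M) (δ⁻¹ * γ * δ)
        rw [hconj]
        have hb := hB k hk
        have hp : |Real.exp (l / 2)| + |Real.exp (-(l / 2))| ≤ M := by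
          rw [abs_of_pos (Real.exp_pos _), abs_of_pos (Real.exp_pos _)]
          rw [htr, Real.cosh_eq] at hM
          linarith
        have bound : ∀ a b c d : ℝ, |a| ≤ B → |b| ≤ B → |c| ≤ B → |d| ≤ B →
            |a * b * Real.exp (l / 2) + c * d * Real.exp (-(l / 2))| ≤ B ^ 2 * M := by
          intro a b c d ha hb hc hd
          have h1 : |a| * |b| ≤ B * B := mul_le_mul ha hb (abs_nonneg _) (by linarith)
          have h2 : |c| * |d| ≤ B * B := mul_le_mul hc hd (abs_nonneg _) (by linarith)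
          calc |a * b * Real.exp (l / 2) + c * d * Real.exp (-(l / 2))|
              ≤ |a * b * Real.exp (l / 2)| + |c * d * Real.exp (-(l / 2))| := abs_add_le _ _
            _ = |a| * |b| * |Real.exp (l / 2)| + |c| * |d| * |Real.exp (-(l / 2))| := by
                rw [abs_mul, abs_mul, abs_mul, abs_mul]
            _ ≤ B * B * |Real.exp (l / 2)| + B * B * |Real.exp (-(l / 2))| := by gcongr
            _ = B ^ 2 * (|Real.exp (l / 2)| + |Real.exp (-(l / 2))|) := by ring
            _ ≤ B ^ 2 * M := by gcongr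
        have hE : Bdd (B ^ 2 * M) (k * geo l * k⁻¹) := by
          intro i j
          fin_cases i <;> fin_cases j
          · show |(k * geo l * k⁻¹) 0 0| ≤ _
            simp only [m00, m01, i00, i10, g00, g01, g10, g11]
            have := bound (k 0 0) (k 1 1) (k 0 1) (-k 1 0) (hb 0 0) (hb 1 1) (hb 0 1) (by rw [abs_neg]; exact hb 1 0)
            refine le_trans (le_of_eq ?_) this
            congr 1; ring
          · show |(k * geo l * k⁻¹) 0 1| ≤ _
            simp only [m00, m01, i01, i11, g00, g01, g10, g11]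
            have := bound (k 0 0) (-k 0 1) (k 0 1) (k 0 0) (hb 0 0) (by rw [abs_neg]; exact hb 0 1) (hb 0 1) (hb 0 0)
            refine le_trans (le_of_eq ?_) this
            congr 1; ring
          · show |(k * geo l * k⁻¹) 1 0| ≤ _
            simp only [m10, m11, i00, i10, g00, g01, g10, g11]
            have := bound (k 1 0) (k 1 1) (k 1 1) (-k 1 0) (hb 1 0) (hb 1 1) (hb 1 1) (by rw [abs_neg]; exact hb 1 0)
            refine le_trans (le_of_eq ?_) this
            congr 1; ring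
          · show |(k * geo l * k⁻¹) 1 1| ≤ _
            simp only [m10, m11, i01, i11, g00, g01, g10, g11]
            have := bound (k 1 0) (-k 0 1) (k 1 1) (k 0 0) (hb 1 0) (by rw [abs_neg]; exact hb 0 1) (hb 1 1) (hb 0 0)
            refine le_trans (le_of_eq ?_) this
            congr 1; ring
        rcases hz with h1 | h1
        · rw [h1, one_mul]; exact hE
        · rw [h1, neg_one_mul]
          intro i j
          show |-(k * geo l * k⁻¹) i j| ≤ _
          rw [abs_neg]; exact hE i j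
      · apply Subtype.ext
        show (γ : SL(2, ℝ)) = δ * (δ⁻¹ * γ * δ) * δ⁻¹
        group

/-- the set of absolute traces of `Γ` is locally finite -/
lemma finite_traces (hΓ : IsSurfaceGroup Γ) (M : ℝ) :
    {x : ℝ | x ≤ M ∧ ∃ γ ∈ Γ, |tr γ| = x}.Finite := by
  obtain ⟨Y, hY, h⟩ := finite_classes hΓ M
  refine (hY.image (fun y : Γ => |tr (y : SL(2, ℝ))|)).subset ?_
  rintro x ⟨hx, γ, hγ, rfl⟩
  obtain ⟨y, hy, δ, hδ⟩ := h ⟨γ, hγ⟩ hx
  refine ⟨y, hy, ?_⟩
  have h1 : γ = (δ : SL(2, ℝ)) * y * (δ : SL(2, ℝ))⁻¹ := congrArg Subtype.val hδ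
  show |tr (y : SL(2, ℝ))| = |tr γ|
  rw [h1, tr_conj]

/-! ### connectedness of `SL(2, ℝ)` and finite generation -/

lemma polar {a c : ℝ} (h : 0 < a ^ 2 + c ^ 2) : ∃ θ : ℝ, Real.cos θ = a / √(a ^ 2 + c ^ 2) ∧
    Real.sin θ = c / √(a ^ 2 + c ^ 2) := by
  set z : ℂ := ⟨a, c⟩ with hz
  have hn : ‖z‖ = √(a ^ 2 + c ^ 2) := by
    rw [Complex.norm_eq_sqrt_sq_add_sq]
  have hz0 : z ≠ 0 := by
    intro h0
    have h1 : a = 0 := congrArg Complex.re h0
    have h2 : c = 0 := congrArg Complex.im h0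
    rw [h1, h2] at h; norm_num at h
  refine ⟨Complex.arg z, ?_, ?_⟩
  · rw [Complex.cos_arg hz0, hn]
  · rw [Complex.sin_arg, hn]

lemma exists_iwasawa (g : SL(2, ℝ)) : ∃ θ t x : ℝ, g = rot θ * geo t * upp x := by
  have hd := sl_det g
  have hpos : 0 < (g 0 0) ^ 2 + (g 1 0) ^ 2 := by
    by_contra hc
    push Not at hc
    have e1 : (g 0 0) ^ 2 = 0 := le_antisymm (by nlinarith [sq_nonneg (g 1 0)]) (sq_nonneg _)
    have e2 : (g 1 0) ^ 2 = 0 := le_antisymm (by nlinarith [sq_nonneg (g 0 0)]) (sq_nonneg _)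
    have f1 := pow_eq_zero_iff (two_ne_zero) |>.mp e1
    have f2 := pow_eq_zero_iff (two_ne_zero) |>.mp e2
    rw [f1, f2] at hd; norm_num at hd
  obtain ⟨θ, hc, hs⟩ := polar hpos
  set r := √((g 0 0) ^ 2 + (g 1 0) ^ 2) with hr
  have hr0 : 0 < r := Real.sqrt_pos.mpr hpos
  have hr2 : r ^ 2 = (g 0 0) ^ 2 + (g 1 0) ^ 2 := Real.sq_sqrt hpos.le
  have hexp : Real.exp (2 * Real.log r / 2) = r := by
    rw [show 2 * Real.log r / 2 = Real.log r by ring, Real.exp_log hr0]
  have hexp' : Real.exp (-(2 * Real.log r / 2)) = r⁻¹ := by rw [Real.exp_neg, hexp]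
  have ha : g 0 0 = r * Real.cos θ := by rw [hc]; field_simp
  have hc' : g 1 0 = r * Real.sin θ := by rw [hs]; field_simp
  refine ⟨θ, 2 * Real.log r, (Real.cos θ * g 0 1 + Real.sin θ * g 1 1) / r, ?_⟩
  have hcs := Real.sin_sq_add_cos_sq θ
  rw [ha, hc'] at hd
  apply sl_ext
  · simp only [m00, m01, m10, m11, r00, r01, r10, r11, g00, g01, g10, g11, u00, u01, u10, u11, hexp, hexp']
    rw [ha]; ring
  · simp only [m00, m01, m10, m11, r00, r01, r10, r11, g00, g01, g10, g11, u00, u01, u10, u11, hexp, hexp']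
    field_simp
    linear_combination (-(Real.sin θ)) * hd - g 0 1 * r * hcs
  · simp only [m00, m01, m10, m11, r00, r01, r10, r11, g00, g01, g10, g11, u00, u01, u10, u11, hexp, hexp']
    rw [hc']; ring
  · simp only [m00, m01, m10, m11, r00, r01, r10, r11, g00, g01, g10, g11, u00, u01, u10, u11, hexp, hexp']
    field_simp
    linear_combination (Real.cos θ) * hd - g 1 1 * r * hcs

lemma continuous_sl {α : Type*} [TopologicalSpace α] {f : α → SL(2, ℝ)}
    (h : ∀ i j, Continuous fun x => (f x) i j) : Continuous f := by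
  rw [continuous_iff_continuousAt]
  intro x
  exact tendsto_sl fun i j => (h i j).continuousAt

instance : PreconnectedSpace SL(2, ℝ) := by
  have hF : Continuous (fun p : ℝ × ℝ × ℝ => rot p.1 * geo p.2.1 * upp p.2.2) := by
    apply Continuous.mul
    · apply Continuous.mul
      · apply continuous_sl
        intro i j
        fin_cases i <;> fin_cases j
        · exact Real.continuous_cos.comp continuous_fst
        · exact (Real.continuous_sin.comp continuous_fst).neg
        · exact Real.continuous_sin.comp continuous_fst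
        · exact Real.continuous_cos.comp continuous_fst
      · apply continuous_sl
        intro i j
        fin_cases i <;> fin_cases j
        · exact Real.continuous_exp.comp ((continuous_fst.comp continuous_snd).div_const 2)
        · exact continuous_const
        · exact continuous_const
        · exact Real.continuous_exp.comp ((continuous_fst.comp continuous_snd).div_const 2).neg
    · apply continuous_sl
      intro i j
      fin_cases i <;> fin_cases j
      · exact continuous_const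
      · exact continuous_snd.comp continuous_snd
      · exact continuous_const
      · exact continuous_const
  have hr : Set.range (fun p : ℝ × ℝ × ℝ => rot p.1 * geo p.2.1 * upp p.2.2) = Set.univ := by
    rw [Set.eq_univ_iff_forall]
    intro g
    obtain ⟨θ, t, x, h⟩ := exists_iwasawa g
    exact ⟨(θ, t, x), h.symm⟩
  exact ⟨by rw [← hr]; exact isPreconnected_range hF⟩

theorem fg (hΓ : IsSurfaceGroup Γ) : ∃ S : Finset Γ, Subgroup.closure (S : Set Γ) = ⊤ := by
  obtain ⟨K, hK, hcov⟩ := hΓ.cocompact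
  obtain ⟨B, hB1, hB⟩ := exists_bdd hK
  set U : Set SL(2, ℝ) := {g | ∀ i j, |g i j| < B + 1} with hU
  have hUo : IsOpen U := by
    have h1 : U = ⋂ i, ⋂ j, {g : SL(2, ℝ) | |g i j| < B + 1} := by
      ext g
      constructor
      · intro h
        rw [Set.mem_iInter]; intro i
        rw [Set.mem_iInter]; intro j
        exact h i j
      · intro h i j
        rw [Set.mem_iInter] at h
        have := h i
        rw [Set.mem_iInter] at this
        exact this j
    rw [h1]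
    apply isOpen_iInter_of_finite
    intro i
    apply isOpen_iInter_of_finite
    intro j
    have hc : Continuous (fun k : SL(2, ℝ) => |k i j|) := by
      have h2 : Continuous (fun k : SL(2, ℝ) => (k : Matrix (Fin 2) (Fin 2) ℝ)) :=
        Matrix.SpecialLinearGroup.isClosedEmbedding_val.continuous
      exact (h2.matrix_elem i j).abs
    exact isOpen_lt hc continuous_const
  have h1U : (1 : SL(2, ℝ)) ∈ U := fun i j => lt_of_le_of_lt (one_entry_le i j) (by linarith)
  set S : Set Γ := {γ : Γ | ∃ u ∈ U, ∃ v ∈ U, (γ : SL(2, ℝ)) * u = v} with hS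
  have hSf : S.Finite := by
    have h1 := sg_finite_bdd hΓ (2 * (B + 1) ^ 2)
    have h2 : S ⊆ (fun y : Γ => (y : SL(2, ℝ))) ⁻¹' {g | g ∈ Γ ∧ Bdd (2 * (B + 1) ^ 2) g} := by
      rintro γ ⟨u, hu, v, hv, huv⟩
      refine ⟨γ.2, ?_⟩
      have e1 : (γ : SL(2, ℝ)) = v * u⁻¹ := by rw [← huv]; group
      have bound : ∀ a b c d : ℝ, |a| < B + 1 → |b| < B + 1 → |c| < B + 1 → |d| < B + 1 →
          |a * b + c * d| ≤ 2 * (B + 1) ^ 2 := by
        intro a b c d ha hb hc hd
        have h1 : |a| * |b| ≤ (B + 1) * (B + 1) := mul_le_mul ha.le hb.le (abs_nonneg _) (by linarith)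
        have h2 : |c| * |d| ≤ (B + 1) * (B + 1) := mul_le_mul hc.le hd.le (abs_nonneg _) (by linarith)
        calc |a * b + c * d| ≤ |a * b| + |c * d| := abs_add_le _ _
          _ = |a| * |b| + |c| * |d| := by rw [abs_mul, abs_mul]
          _ ≤ 2 * (B + 1) ^ 2 := by nlinarith
      intro i j
      show |(γ : SL(2, ℝ)) i j| ≤ _
      rw [e1]
      fin_cases i <;> fin_cases j
      · show |(v * u⁻¹) 0 0| ≤ _
        rw [m00, i00, i10]
        exact bound _ _ _ _ (hv 0 0) (hu 1 1) (hv 0 1) (by rw [abs_neg]; exact hu 1 0)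
      · show |(v * u⁻¹) 0 1| ≤ _
        rw [m01, i01, i11]
        exact bound _ _ _ _ (hv 0 0) (by rw [abs_neg]; exact hu 0 1) (hv 0 1) (hu 0 0)
      · show |(v * u⁻¹) 1 0| ≤ _
        rw [m10, i00, i10]
        exact bound _ _ _ _ (hv 1 0) (hu 1 1) (hv 1 1) (by rw [abs_neg]; exact hu 1 0)
      · show |(v * u⁻¹) 1 1| ≤ _
        rw [m11, i01, i11]
        exact bound _ _ _ _ (hv 1 0) (by rw [abs_neg]; exact hu 0 1) (hv 1 1) (hu 0 0)
    exact (h1.preimage Subtype.val_injective.injOn).subset h2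
  refine ⟨hSf.toFinset, ?_⟩
  rw [hSf.coe_toFinset]
  set Λ := Subgroup.closure S with hΛ
  rw [eq_top_iff]
  intro γ _
  by_contra hγ
  set A : Set SL(2, ℝ) := ⋃ l ∈ {l : Γ | l ∈ Λ}, (fun g => (l : SL(2, ℝ)) * g) '' U with hA
  set C : Set SL(2, ℝ) := ⋃ l ∈ {l : Γ | l ∉ Λ}, (fun g => (l : SL(2, ℝ)) * g) '' U with hC
  have hAo : IsOpen A := by
    apply isOpen_biUnion
    intro l _
    exact (Homeomorph.mulLeft (l : SL(2, ℝ))).isOpenMap U hUo
  have hCo : IsOpen C := by
    apply isOpen_biUnion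
    intro l _
    exact (Homeomorph.mulLeft (l : SL(2, ℝ))).isOpenMap U hUo
  have hcover : (Set.univ : Set SL(2, ℝ)) ⊆ A ∪ C := by
    intro g _
    obtain ⟨γ', hγ', k, hk, hgk⟩ := hcov g
    have hkU : k ∈ U := fun i j => lt_of_le_of_lt (hB k hk i j) (by linarith)
    by_cases h1 : (⟨γ', hγ'⟩ : Γ) ∈ Λ
    · left
      exact Set.mem_biUnion (x := (⟨γ', hγ'⟩ : Γ)) h1 ⟨k, hkU, hgk.symm⟩
    · right
      exact Set.mem_biUnion (x := (⟨γ', hγ'⟩ : Γ)) h1 ⟨k, hkU, hgk.symm⟩
  have hAn : (Set.univ ∩ A).Nonempty := by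
    refine ⟨1, trivial, ?_⟩
    exact Set.mem_biUnion (x := (1 : Γ)) Λ.one_mem ⟨1, h1U, by simp⟩
  have hCn : (Set.univ ∩ C).Nonempty := by
    refine ⟨(γ : SL(2, ℝ)), trivial, ?_⟩
    exact Set.mem_biUnion (x := γ) hγ ⟨1, h1U, by simp⟩
  obtain ⟨g, _, hgA, hgC⟩ := isPreconnected_univ A C hAo hCo hcover hAn hCn
  rw [hA, Set.mem_iUnion₂] at hgA
  rw [hC, Set.mem_iUnion₂] at hgC
  obtain ⟨l, hl, u, hu, hlu⟩ := hgA
  obtain ⟨m, hm, v, hv, hmv⟩ := hgC
  apply hm
  have h1 : (l⁻¹ * m : Γ) ∈ S := by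
    refine ⟨v, hv, u, hu, ?_⟩
    show ((l : SL(2, ℝ))⁻¹ * (m : SL(2, ℝ))) * v = u
    have h2 : (m : SL(2, ℝ)) * v = l * u := hmv.trans hlu.symm
    rw [mul_assoc, h2]; group
  have h2 : m = l * (l⁻¹ * m) := by group
  rw [h2]
  exact Λ.mul_mem hl (Subgroup.subset_closure h1)

end Pool.Agent.SimpleAnosov.H64
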