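import Pool.Agent.H64.SA.Basic

/-!
# All nontrivial elements of a surface group are hyperbolic
-/

open Matrix MatrixGroups Topology Filter Set

set_option linter.unusedSimpArgs false

namespace Pool.Agent.SimpleAnosov.H64

/-! ### powers of elliptic elements -/

lemma pow_entries {g : SL(2, ℝ)} {θ : ℝ} (h : tr g = 2 * Real.cos θ) (n : ℕ) (i j : Fin 2) :
    Real.sin θ * (g ^ n) i j = Real.sin (n * θ) * g i j - Real.sin ((n - 1) * θ) * (1 : SL(2, ℝ)) i j := by
  have hd := sl_det g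
  rw [tr_eq] at h
  -- joint induction on all four entries
  have key : ∀ n : ℕ,
      Real.sin θ * (g ^ n) 0 0 = Real.sin (n * θ) * g 0 0 - Real.sin ((n - 1) * θ) ∧
      Real.sin θ * (g ^ n) 0 1 = Real.sin (n * θ) * g 0 1 ∧
      Real.sin θ * (g ^ n) 1 0 = Real.sin (n * θ) * g 1 0 ∧
      Real.sin θ * (g ^ n) 1 1 = Real.sin (n * θ) * g 1 1 - Real.sin ((n - 1) * θ) := by
    intro n
    induction n with
    | zero =>
      rw [pow_zero, o00, o01, o10, o11]
      simp
    | succ n ih =>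
      obtain ⟨h0, h1, h2, h3⟩ := ih
      have e1 : Real.sin (((n:ℝ) + 1) * θ) = 2 * Real.cos θ * Real.sin (n * θ) - Real.sin ((n - 1) * θ) := by
        rw [show ((n:ℝ) + 1) * θ = n * θ + θ by ring, show ((n:ℝ) - 1) * θ = n * θ - θ by ring,
          Real.sin_add, Real.sin_sub]; ring
      have e2 : ((n + 1 : ℕ) : ℝ) = (n:ℝ) + 1 := by push_cast; ring
      rw [pow_succ, m00, m01, m10, m11, e2, e1, show ((n:ℝ) + 1 - 1) * θ = n * θ by ring]
      refine ⟨?_, ?_, ?_, ?_⟩
      · linear_combination (g 0 0) * h0 + (g 1 0) * h1 + (Real.sin (n*θ) * g 0 0) * h - Real.sin (n*θ) * hd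
      · linear_combination (g 0 1) * h0 + (g 1 1) * h1 + (Real.sin (n*θ) * g 0 1) * h
      · linear_combination (g 0 0) * h2 + (g 1 0) * h3 + (Real.sin (n*θ) * g 1 0) * h
      · linear_combination (g 0 1) * h2 + (g 1 1) * h3 + (Real.sin (n*θ) * g 1 1) * h - Real.sin (n*θ) * hd
  obtain ⟨h0, h1, h2, h3⟩ := key n
  fin_cases i <;> fin_cases j
  · show _ = _ - _ * (1 : SL(2, ℝ)) 0 0
    rw [o00, mul_one]; exact h0
  · show _ = _ - _ * (1 : SL(2, ℝ)) 0 1
    rw [o01, mul_zero, sub_zero]; exact h1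
  · show _ = _ - _ * (1 : SL(2, ℝ)) 1 0
    rw [o10, mul_zero, sub_zero]; exact h2
  · show _ = _ - _ * (1 : SL(2, ℝ)) 1 1
    rw [o11, mul_one]; exact h3

lemma one_entry_le (i j : Fin 2) : |(1 : SL(2, ℝ)) i j| ≤ 1 := by
  fin_cases i <;> fin_cases j
  · show |(1 : SL(2, ℝ)) 0 0| ≤ 1
    rw [o00]; simp
  · show |(1 : SL(2, ℝ)) 0 1| ≤ 1
    rw [o01]; simp
  · show |(1 : SL(2, ℝ)) 1 0| ≤ 1
    rw [o10]; simp
  · show |(1 : SL(2, ℝ)) 1 1| ≤ 1
    rw [o11]; simp

variable {Γ : Subgroup SL(2, ℝ)}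

/-- an element of `Γ` with bounded powers is trivial -/
lemma sg_eq_one_of_pow_bdd (hΓ : IsSurfaceGroup Γ) {g : SL(2, ℝ)} (hg : g ∈ Γ) {B : ℝ}
    (h : ∀ n : ℕ, Bdd B (g ^ n)) : g = 1 := by
  have hfin := sg_finite_bdd hΓ B
  have hni : ¬ Function.Injective (fun n : ℕ => g ^ n) := by
    intro hinj
    have h1 : (Set.range (fun n : ℕ => g ^ n)).Infinite := Set.infinite_range_of_injective hinj
    apply h1
    apply hfin.subset
    rintro _ ⟨n, rfl⟩
    exact ⟨Γ.pow_mem hg n, h n⟩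
  rw [Function.Injective] at hni
  push Not at hni
  obtain ⟨a, b, hab, hne⟩ := hni
  have key : ∀ a b : ℕ, a < b → g ^ a = g ^ b → g = 1 := by
    intro a b hlt he
    have h2 : g ^ (b - a) = 1 := by
      have : g ^ b = g ^ a * g ^ (b - a) := by rw [← pow_add]; congr 1; omega
      rw [this] at he
      exact (mul_eq_left.mp he.symm)
    exact hΓ.torsionFree g hg (b - a) (by omega) h2
  rcases lt_or_gt_of_ne hne with h3 | h3
  · exact key a b h3 hab
  · exact key b a h3 hab.symm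

lemma sg_elliptic (hΓ : IsSurfaceGroup Γ) {g : SL(2, ℝ)} (hg : g ∈ Γ) : 2 ≤ |tr g| := by
  by_contra hc
  push Not at hc
  rw [abs_lt] at hc
  set θ := Real.arccos (tr g / 2) with hθ
  have h1 : Real.cos θ = tr g / 2 := Real.cos_arccos (by linarith [hc.1]) (by linarith [hc.2])
  have h2 : 0 < Real.sin θ := by
    apply Real.sin_pos_of_pos_of_lt_pi
    · rw [hθ, Real.arccos_pos]; linarith [hc.2]
    · rw [hθ, Real.arccos_lt_pi]; linarith [hc.1]
  have h3 : tr g = 2 * Real.cos θ := by rw [h1]; ring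
  obtain ⟨B, hB1, hB⟩ := exists_bdd (isCompact_singleton (x := g))
  have h4 : g = 1 := by
    apply sg_eq_one_of_pow_bdd hΓ hg (B := (B + 1) / Real.sin θ)
    intro n i j
    rw [le_div_iff₀ h2]
    have h5 := pow_entries h3 n i j
    have h6 : |(g ^ n) i j| * Real.sin θ = |Real.sin θ * (g ^ n) i j| := by
      rw [abs_mul, abs_of_pos h2]; ring
    rw [h6, h5]
    have h7 := hB g rfl i j
    have h8 := one_entry_le i j
    calc |Real.sin (n * θ) * g i j - Real.sin ((n - 1) * θ) * (1 : SL(2, ℝ)) i j|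
        ≤ |Real.sin (n * θ) * g i j| + |Real.sin ((n - 1) * θ) * (1 : SL(2, ℝ)) i j| := abs_sub _ _
      _ ≤ 1 * B + 1 * 1 := by
          rw [abs_mul, abs_mul]
          gcongr
          · exact Real.abs_sin_le_one _
          · exact Real.abs_sin_le_one _
      _ = B + 1 := by ring
  rw [h4, tr_one] at hc
  linarith [hc.2]

/-! ### triangular form -/

lemma exists_triangular {g : SL(2, ℝ)} (hg : 2 ≤ |tr g|) :
    ∃ (h : SL(2, ℝ)) (a x : ℝ), a ≠ 0 ∧ 1 ≤ |a| ∧ (h⁻¹ * g * h) 0 0 = a ∧ (h⁻¹ * g * h) 0 1 = x ∧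
      (h⁻¹ * g * h) 1 0 = 0 ∧ (h⁻¹ * g * h) 1 1 = a⁻¹ := by
  -- an eigenvalue
  obtain ⟨a, ha, ha1⟩ : ∃ a : ℝ, a ^ 2 - tr g * a + 1 = 0 ∧ 1 ≤ |a| := by
    set D := Real.sqrt ((tr g) ^ 2 - 4) with hD
    have h0 : 0 ≤ (tr g) ^ 2 - 4 := by
      have : (2:ℝ) ^ 2 ≤ |tr g| ^ 2 := by gcongr
      rw [sq_abs] at this; linarith
    have hD2 : D ^ 2 = (tr g) ^ 2 - 4 := Real.sq_sqrt h0
    have hD0 : 0 ≤ D := Real.sqrt_nonneg _
    rcases le_total 0 (tr g) with h | h
    · refine ⟨(tr g + D) / 2, ?_, ?_⟩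
      · linear_combination hD2 / 4
      · rw [abs_of_nonneg h] at hg
        rw [abs_of_nonneg (by linarith)]; linarith
    · refine ⟨(tr g - D) / 2, ?_, ?_⟩
      · linear_combination hD2 / 4
      · rw [abs_of_nonpos h] at hg
        rw [abs_of_nonpos (by linarith)]; linarith
  have ha0 : a ≠ 0 := by
    intro h; rw [h] at ha; norm_num at ha
  have hd := sl_det g
  rw [tr_eq] at ha
  -- an eigenvector
  obtain ⟨p, q, hpq, hp, hq⟩ : ∃ p q : ℝ, 0 < p ^ 2 + q ^ 2 ∧ g 0 0 * p + g 0 1 * q = a * p ∧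
      g 1 0 * p + g 1 1 * q = a * q := by
    by_cases h1 : g 0 1 = 0 ∧ a = g 0 0
    · by_cases h2 : g 1 0 = 0 ∧ a = g 1 1
      · refine ⟨1, 0, by norm_num, ?_, ?_⟩
        · rw [h1.2]; ring
        · rw [h2.1]; ring
      · refine ⟨a - g 1 1, g 1 0, ?_, ?_, ?_⟩
        · by_contra hc
          push Not at hc
          have e1 : (g 1 0) ^ 2 = 0 := le_antisymm (by nlinarith [sq_nonneg (a - g 1 1)]) (sq_nonneg _)
          have e2 : (a - g 1 1) ^ 2 = 0 := le_antisymm (by nlinarith [sq_nonneg (g 1 0)]) (sq_nonneg _)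
          exact h2 ⟨pow_eq_zero_iff (two_ne_zero) |>.mp e1,
            sub_eq_zero.mp (pow_eq_zero_iff (two_ne_zero) |>.mp e2)⟩
        · linear_combination -ha - hd
        · ring
    · refine ⟨g 0 1, a - g 0 0, ?_, ?_, ?_⟩
      · by_contra hc
        push Not at hc
        have e1 : (g 0 1) ^ 2 = 0 := le_antisymm (by nlinarith [sq_nonneg (a - g 0 0)]) (sq_nonneg _)
        have e2 : (a - g 0 0) ^ 2 = 0 := le_antisymm (by nlinarith [sq_nonneg (g 0 1)]) (sq_nonneg _)
        exact h1 ⟨pow_eq_zero_iff (two_ne_zero) |>.mp e1,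
          sub_eq_zero.mp (pow_eq_zero_iff (two_ne_zero) |>.mp e2)⟩
      · ring
      · linear_combination -ha - hd
  set r := p ^ 2 + q ^ 2 with hr
  let h : SL(2, ℝ) := ⟨!![p, -q / r; q, p / r], by
    rw [Matrix.det_fin_two_of]; field_simp; rw [hr]; ring⟩
  have h00 : h 0 0 = p := rfl
  have h01 : h 0 1 = -q / r := rfl
  have h10 : h 1 0 = q := rfl
  have h11 : h 1 1 = p / r := rfl
  have k00 : (h⁻¹ * g * h) 0 0 = a := by
    rw [m00, m00, m01, i00, i01, h00, h01, h10, h11]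
    field_simp
    linear_combination p * hp + q * hq - a * hr
  have k10 : (h⁻¹ * g * h) 1 0 = 0 := by
    rw [m10, m10, m11, i10, i11, h00, h10]
    linear_combination p * hq - q * hp
  refine ⟨h, a, (h⁻¹ * g * h) 0 1, ha0, ha1, k00, rfl, k10, ?_⟩
  have hd' := sl_det (h⁻¹ * g * h)
  rw [k00, k10] at hd'
  field_simp
  linarith

/-! ### parabolic elements -/

lemma sg_eq_one_of_tr_two (hΓ : IsSurfaceGroup Γ) {g : SL(2, ℝ)} (hg : g ∈ Γ)
    (ht : tr g = 2) : g = 1 := by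
  obtain ⟨h, a, x, ha0, ha1, k00, k01, k10, k11⟩ := exists_triangular (g := g) (by rw [ht]; norm_num)
  have ha : a = 1 := by
    have h1 := tr_conj g h⁻¹
    rw [inv_inv, tr_eq, k00, k11, ht] at h1
    field_simp at h1
    nlinarith
  rw [ha] at k00 k11
  have hu : h⁻¹ * g * h = upp x := by
    apply sl_ext
    · rw [k00, u00]
    · rw [k01, u01]
    · rw [k10, u10]
    · rw [k11, u11, inv_one]
  obtain ⟨K, hK, hcov⟩ := hΓ.cocompact
  have hseq : ∀ n : ℕ, ∃ γ ∈ Γ, ∃ k ∈ K, h * geo n = γ * k := fun n => hcov _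
  choose γ hγ k hk hγk using hseq
  obtain ⟨B, hB1, hB⟩ := exists_bdd hK
  -- the conjugates
  have hconj : ∀ n : ℕ, (γ n)⁻¹ * g * γ n = k n * upp (x * Real.exp (-n)) * (k n)⁻¹ := by
    intro n
    have e1 : (geo (n:ℝ))⁻¹ * upp x * geo n = upp (x * Real.exp (-n)) := by
      apply sl_ext
      · simp only [m00, m01, i00, i01, g00, g01, g10, g11, u00, u10]
        rw [show Real.exp (-((n:ℝ)/2)) * 1 + -0 * 0 = Real.exp (-((n:ℝ)/2)) by ring]
        rw [mul_zero, add_zero, ← Real.exp_add]; simp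
      · simp only [m00, m01, i00, i01, g00, g01, g10, g11, u00, u01, u10, u11]
        have : Real.exp (-(n:ℝ)) = Real.exp (-((n:ℝ)/2)) * Real.exp (-((n:ℝ)/2)) := by
          rw [← Real.exp_add]; congr 1; ring
        rw [this]; ring
      · simp only [m10, m11, i10, i11, g00, g01, g10, g11, u00, u01, u10, u11]; ring
      · simp only [m10, m11, i10, i11, g00, g01, g10, g11, u00, u01, u10, u11]
        rw [show (-0 * x + Real.exp ((n:ℝ)/2) * 1) = Real.exp ((n:ℝ)/2) by ring]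
        rw [mul_zero, zero_add, ← Real.exp_add]; simp
    have e2 : γ n = h * geo n * (k n)⁻¹ := by rw [hγk]; group
    rw [e2, ← e1, ← hu]
    group
  -- convergence to 1
  have hlim : Tendsto (fun n : ℕ => (γ n)⁻¹ * g * γ n) atTop (𝓝 1) := by
    apply tendsto_sl
    intro i j
    have hexp : Tendsto (fun n : ℕ => B ^ 2 * |x| * Real.exp (-(n:ℝ))) atTop (𝓝 0) := by
      have h1 : Tendsto (fun n : ℕ => Real.exp (-(n:ℝ))) atTop (𝓝 0) :=
        Real.tendsto_exp_neg_atTop_nhds_zero.comp tendsto_natCast_atTop_atTop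
      simpa using h1.const_mul (B ^ 2 * |x|)
    rw [tendsto_iff_dist_tendsto_zero]
    refine squeeze_zero (fun n => dist_nonneg) (fun n => ?_) hexp
    rw [Real.dist_eq]
    show |((γ n)⁻¹ * g * γ n) i j - (1 : SL(2, ℝ)) i j| ≤ _
    rw [hconj n]
    have hb := hB (k n) (hk n)
    have hd := sl_det (k n)
    have hE := Real.exp_pos (-(n:ℝ))
    have bound : ∀ p q : ℝ, |p| ≤ B → |q| ≤ B → |p * q * (x * Real.exp (-(n:ℝ)))| ≤ B ^ 2 * |x| * Real.exp (-(n:ℝ)) := by
      intro p q hp hq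
      rw [abs_mul, abs_mul, abs_mul, abs_of_pos hE]
      have : |p| * |q| ≤ B * B := mul_le_mul hp hq (abs_nonneg _) (by linarith)
      calc |p| * |q| * (|x| * Real.exp (-(n:ℝ))) ≤ B * B * (|x| * Real.exp (-(n:ℝ))) := by gcongr
        _ = _ := by ring
    fin_cases i <;> fin_cases j
    · show |(k n * upp (x * Real.exp (-n)) * (k n)⁻¹) 0 0 - (1 : SL(2, ℝ)) 0 0| ≤ _
      simp only [m00, m01, i00, i01, i10, i11, u00, u01, u10, u11, o00]
      have := bound (-(k n) 0 0) ((k n) 1 0) (by rw [abs_neg]; exact hb 0 0) (hb 1 0)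
      refine le_trans (le_of_eq ?_) this
      congr 1
      linear_combination hd
    · show |(k n * upp (x * Real.exp (-n)) * (k n)⁻¹) 0 1 - (1 : SL(2, ℝ)) 0 1| ≤ _
      simp only [m00, m01, i00, i01, i10, i11, u00, u01, u10, u11, o01]
      have := bound ((k n) 0 0) ((k n) 0 0) (hb 0 0) (hb 0 0)
      refine le_trans (le_of_eq ?_) this
      congr 1
      ring
    · show |(k n * upp (x * Real.exp (-n)) * (k n)⁻¹) 1 0 - (1 : SL(2, ℝ)) 1 0| ≤ _
      simp only [m10, m11, i00, i01, i10, i11, u00, u01, u10, u11, o10]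
      have := bound (-(k n) 1 0) ((k n) 1 0) (by rw [abs_neg]; exact hb 1 0) (hb 1 0)
      refine le_trans (le_of_eq ?_) this
      congr 1
      ring
    · show |(k n * upp (x * Real.exp (-n)) * (k n)⁻¹) 1 1 - (1 : SL(2, ℝ)) 1 1| ≤ _
      simp only [m10, m11, i00, i01, i10, i11, u00, u01, u10, u11, o11]
      have := bound ((k n) 1 0) ((k n) 0 0) (hb 1 0) (hb 0 0)
      refine le_trans (le_of_eq ?_) this
      congr 1
      linear_combination hd
  -- discreteness
  have hd : IsDiscrete (Γ : Set SL(2, ℝ)) := isDiscrete_iff_discreteTopology.mpr hΓ.discrete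
  obtain ⟨U, hU, hUΓ⟩ := nhds_inter_eq_singleton_of_mem_discrete hd Γ.one_mem
  have hev := hlim.eventually_mem hU
  obtain ⟨n, hn⟩ := hev.exists
  have h1 : (γ n)⁻¹ * g * γ n ∈ U ∩ (Γ : Set SL(2, ℝ)) :=
    ⟨hn, Γ.mul_mem (Γ.mul_mem (Γ.inv_mem (hγ n)) hg) (hγ n)⟩
  rw [hUΓ] at h1
  have h2 : (γ n)⁻¹ * g * γ n = 1 := h1
  have h3 : g = γ n * ((γ n)⁻¹ * g * γ n) * (γ n)⁻¹ := by group
  rw [h3, h2]; group

lemma tr_sq (g : SL(2, ℝ)) : tr (g * g) = tr g ^ 2 - 2 := by
  rw [tr_eq, tr_eq, m00, m11]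
  linear_combination (-2) * sl_det g

lemma sg_two_lt (hΓ : IsSurfaceGroup Γ) {g : SL(2, ℝ)} (hg : g ∈ Γ) (h1 : g ≠ 1) :
    2 < |tr g| := by
  rcases (sg_elliptic hΓ hg).lt_or_eq with h | h
  · exact h
  · exfalso
    have h2 : tr (g * g) = 2 := by
      rw [tr_sq, ← sq_abs, ← h]; norm_num
    have h3 := sg_eq_one_of_tr_two hΓ (Γ.mul_mem hg hg) h2
    exact h1 (hΓ.torsionFree g hg 2 (by norm_num) (by rw [sq]; exact h3))

/-- **Diagonalisation.** -/
theorem sg_hyperbolic (hΓ : IsSurfaceGroup Γ) {g : SL(2, ℝ)} (hg : g ∈ Γ) (h1 : g ≠ 1) :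
    ∃ (h : SL(2, ℝ)) (l : ℝ), 0 < l ∧ (g * h = h * geo l ∨ g * h = -(h * geo l)) ∧
      |tr g| = 2 * Real.cosh (l / 2) := by
  have h2 := sg_two_lt hΓ hg h1
  obtain ⟨h, a, x, ha0, ha1, k00, k01, k10, k11⟩ := exists_triangular h2.le
  have htr : tr g = a + a⁻¹ := by
    have := tr_conj g h⁻¹
    rw [inv_inv, tr_eq, k00, k11] at this
    exact this.symm
  have ha : 1 < |a| := by
    rcases ha1.lt_or_eq with h | h
    · exact h
    · exfalso
      have h3 : a = 1 ∨ a = -1 := by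
        rcases abs_choice a with h4 | h4
        · left; rw [← h4, ← h]
        · right; rw [h4] at h; linarith
      rcases h3 with h3 | h3
      · rw [htr, h3] at h2; norm_num at h2
      · rw [htr, h3] at h2; norm_num at h2
  have hl : 0 < 2 * Real.log |a| := by
    have := Real.log_pos ha
    linarith
  have hexp : Real.exp (2 * Real.log |a| / 2) = |a| := by
    rw [show 2 * Real.log |a| / 2 = Real.log |a| by ring, Real.exp_log (by linarith)]
  have hexp' : Real.exp (-(2 * Real.log |a| / 2)) = |a|⁻¹ := by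
    rw [Real.exp_neg, hexp]
  have hne : a⁻¹ - a ≠ 0 := by
    intro h3
    have h4 : a * a = 1 := by
      field_simp at h3
      nlinarith
    have h5 : |a| * |a| = 1 := by rw [← abs_mul, h4, abs_one]
    nlinarith
  set y := x / (a⁻¹ - a) with hy
  have hyx : y * (a⁻¹ - a) = x := div_mul_cancel₀ x hne
  have hcosh : 2 * Real.cosh (2 * Real.log |a| / 2) = |a| + |a|⁻¹ := by
    rw [Real.cosh_eq, hexp, hexp']; ring
  refine ⟨h * upp y, 2 * Real.log |a|, hl, ?_, ?_⟩
  · have hconj : h⁻¹ * g * h * upp y = upp y * dia a ha0 := by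
      apply sl_ext
      · rw [m00, k00, k01, m00, u00, u10, u01, d00, d10]
        ring
      · rw [m01, k00, k01, m01, u00, u01, u11, d01, d11]
        linear_combination -hyx
      · rw [m10, k10, k11, m10, u00, u10, u11, d00, d10]
        ring
      · rw [m11, k10, k11, m11, u10, u01, u11, d01, d11]
        ring
    have hfac : g * (h * upp y) = h * (h⁻¹ * g * h * upp y) := by group
    rw [hfac, hconj]
    rcases le_total 0 a with hs | hs
    · left
      rw [← mul_assoc]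
      congr 1
      rw [abs_of_nonneg hs] at hexp hexp' ⊢
      apply sl_ext
      · rw [g00, hexp, d00]
      · rw [g01, d01]
      · rw [g10, d10]
      · rw [g11, hexp', d11]
    · right
      rw [← mul_assoc, ← mul_neg]
      congr 1
      rw [abs_of_nonpos hs] at hexp hexp' ⊢
      apply sl_ext
      · rw [n00, g00, hexp, d00]
        ring
      · rw [n01, g01, d01]
        ring
      · rw [n10, g10, d10]
        ring
      · rw [n11, g11, hexp', d11, inv_neg, neg_neg]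
  · rw [hcosh, htr]
    rcases le_total 0 a with hs | hs
    · rw [abs_of_nonneg hs, abs_of_nonneg (by positivity)]
    · rw [abs_of_nonpos hs]
      have h5 : a⁻¹ ≤ 0 := inv_nonpos.mpr hs
      rw [abs_of_nonpos (by linarith), inv_neg]; ring

end Pool.Agent.SimpleAnosov.H64
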