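import Pool.Agent.H64.SA.Fuchs

/-!
# Skein resolution into simple elements
-/

open Matrix MatrixGroups Topology Filter Set

set_option linter.unusedSimpArgs false

namespace Pool.Agent.SimpleAnosov.H64

variable {Γ : Subgroup SL(2, ℝ)}

/-- `γ` is a nontrivial element whose axis projects to a simple closed geodesic -/
def IsSimpleElt (Γ : Subgroup SL(2, ℝ)) (γ : Γ) : Prop :=
  γ ≠ 1 ∧ ∃ (h : SL(2, ℝ)) (l : ℝ), 0 < l ∧
    ((γ : SL(2, ℝ)) * h = h * geo l ∨ (γ : SL(2, ℝ)) * h = -(h * geo l)) ∧ IsSimpleClosed Γ h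

/-- the stabiliser of `i` -/
lemma stab_I {g : SL(2, ℝ)} (h : g • UpperHalfPlane.I = UpperHalfPlane.I) : ∃ θ, g = rot θ := by
  have h1 : ((g • UpperHalfPlane.I : UpperHalfPlane) : ℂ) = (UpperHalfPlane.I : UpperHalfPlane) := by rw [h]
  rw [coe_smul_eq, UpperHalfPlane.coe_I] at h1
  have hne : ((g 1 0 : ℂ) * Complex.I + g 1 1) ≠ 0 := by
    intro h0
    have r := congrArg Complex.re h0
    have i := congrArg Complex.im h0
    simp at r i
    have hd := sl_det g
    rw [r, i] at hd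
    norm_num at hd
  rw [div_eq_iff hne] at h1
  have r := congrArg Complex.re h1
  have i := congrArg Complex.im h1
  simp at r i
  have hd := sl_det g
  have hone : (g 0 0) ^ 2 + (g 1 0) ^ 2 = 1 := by rw [← i, r] at hd; linarith
  obtain ⟨θ, hc, hs⟩ := polar (a := g 0 0) (c := g 1 0) (by rw [hone]; norm_num)
  have hs1 : √((g 0 0) ^ 2 + (g 1 0) ^ 2) = 1 := by
    rw [hone, Real.sqrt_one]
  rw [hs1, div_one] at hc hs
  refine ⟨θ, sl_ext ?_ ?_ ?_ ?_⟩
  · rw [r00, hc]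
  · rw [r01, hs, r]
  · rw [r10, hs]
  · rw [r11, hc, i]

lemma line_eq_of {h g w : SL(2, ℝ)} {v : ℝ} (hw : IsC w) (hg : g = w * (h * geo v)) : line g = line h := by
  unfold line
  ext z
  constructor
  · rintro ⟨t, rfl⟩
    refine ⟨v + t, ?_⟩
    show (h * geo (v + t)) • UpperHalfPlane.I = (g * geo t) • UpperHalfPlane.I
    rw [hg, mul_assoc, mul_assoc, ← geo_add, hw.smul]
  · rintro ⟨t, rfl⟩
    refine ⟨t - v, ?_⟩
    show (g * geo (t - v)) • UpperHalfPlane.I = (h * geo t) • UpperHalfPlane.I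
    rw [hg, mul_assoc, mul_assoc, ← geo_add, hw.smul]
    congr 3; ring

lemma not_disjoint_line {h g : SL(2, ℝ)} (hd : ¬ Disjoint (line g) (line h)) :
    ∃ s t θ : ℝ, g * geo t = h * geo s * rot θ := by
  rw [Set.not_disjoint_iff] at hd
  obtain ⟨z, ⟨t, ht⟩, ⟨s, hs⟩⟩ := hd
  have h1 : ((h * geo s)⁻¹ * (g * geo t)) • UpperHalfPlane.I = UpperHalfPlane.I := by
    have ht' : (g * geo t) • UpperHalfPlane.I = z := ht
    have hs' : (h * geo s) • UpperHalfPlane.I = z := hs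
    rw [mul_smul, ht', ← hs', inv_smul_smul]
  obtain ⟨θ, hθ⟩ := stab_I h1
  exact ⟨s, t, θ, by rw [← hθ]; group⟩

lemma axis_zpow {γ h z : SL(2, ℝ)} {l : ℝ} (hz : IsC z) (hax : γ * h = z * (h * geo l)) (n : ℤ) :
    γ ^ n * h = z ^ n * (h * geo (n * l)) := by
  have e1 : γ = z * (h * geo l * h⁻¹) := by
    have : γ = γ * h * h⁻¹ := by group
    rw [this, hax]; group
  have hgeo : ∀ n : ℕ, geo l ^ n = geo (n * l) := by
    intro n
    induction n with
    | zero => simp [geo_zero]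
    | succ n ih => rw [pow_succ, ih, ← geo_add]; congr 1; push_cast; ring
  have hgeoz : ∀ n : ℤ, geo l ^ n = geo (n * l) := by
    intro n
    cases n with
    | ofNat n => rw [Int.ofNat_eq_natCast, zpow_natCast, hgeo]; push_cast; rfl
    | negSucc n =>
      rw [zpow_negSucc, hgeo, ← geo_neg]; congr 1; push_cast; ring
  have hcomm : Commute z (h * geo l * h⁻¹) := hz.comm _
  rw [e1, hcomm.mul_zpow, conj_zpow, hgeoz]
  group

/-- **The skein step.** -/
theorem skein_step (hΓ : IsSurfaceGroup Γ) {γ : SL(2, ℝ)} (hγ : γ ∈ Γ) {h : SL(2, ℝ)} {l : ℝ}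
    (hl : 0 < l) (hax : γ * h = h * geo l ∨ γ * h = -(h * geo l)) {δ : SL(2, ℝ)} (hδ : δ ∈ Γ)
    (hne : line (δ * h) ≠ line h) (hnd : ¬ Disjoint (line (δ * h)) (line h)) :
    ∃ η ∈ Γ, η ≠ 1 ∧ |tr η| < |tr γ| ∧ |tr (η⁻¹ * γ)| < |tr γ| ∧ |tr (η * γ⁻¹ * η)| < |tr γ| := by
  obtain ⟨z, hz, hax⟩ := axis_iff.mp hax
  obtain ⟨s, t, θ, hst⟩ := not_disjoint_line hnd
  -- normalise
  set n : ℤ := ⌊(s - t) / l⌋ with hn
  set u : ℝ := s - t - n * l with hu
  have hu0 : 0 ≤ u := by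
    have := Int.floor_le ((s - t) / l)
    rw [← hn, le_div_iff₀ hl] at this
    linarith
  have hul : u < l := by
    have := Int.lt_floor_add_one ((s - t) / l)
    rw [← hn, div_lt_iff₀ hl] at this
    linarith
  set η := γ ^ (-n) * δ with hη
  set h' := h * geo t with hh'
  set w := z ^ (-n) with hw
  have hwC : IsC w := hz.zpow _
  have hηh : η * h' = w * (h' * (geo u * rot θ)) := by
    have e1 := axis_zpow hz hax (-n)
    calc η * h' = γ ^ (-n) * (δ * h * geo t) := by rw [hη, hh']; group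
      _ = γ ^ (-n) * (h * geo s * rot θ) := by rw [hst]
      _ = (γ ^ (-n) * h) * (geo s * rot θ) := by group
      _ = (w * (h * geo ((-n : ℤ) * l))) * (geo s * rot θ) := by rw [e1]
      _ = w * (h * (geo ((-n : ℤ) * l) * geo s) * rot θ) := by group
      _ = w * (h * (geo t * geo u) * rot θ) := by
          rw [← geo_add, ← geo_add]; congr 4; rw [hu]; push_cast; ring
      _ = w * (h' * (geo u * rot θ)) := by rw [hh']; group
  have hηΓ : η ∈ Γ := Γ.mul_mem (Γ.zpow_mem hγ _) hδ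
  have hγh : γ * h' = z * (h' * geo l) := by
    rw [hh', ← mul_assoc, hax]
    have : geo l * geo t = geo t * geo l := by rw [← geo_add, ← geo_add, add_comm]
    calc z * (h * geo l) * geo t = z * (h * (geo l * geo t)) := by group
      _ = z * (h * (geo t * geo l)) := by rw [this]
      _ = _ := by group
  -- conjugated forms
  have eη : h'⁻¹ * η * h' = w * (geo u * rot θ) := by
    have : h'⁻¹ * η * h' = h'⁻¹ * (η * h') := by group
    rw [this, hηh, ← mul_assoc, ← hwC.comm]; group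
  have eγ : h'⁻¹ * γ * h' = z * geo l := by
    have : h'⁻¹ * γ * h' = h'⁻¹ * (γ * h') := by group
    rw [this, hγh, ← mul_assoc, ← hz.comm]; group
  have trconj : ∀ g : SL(2, ℝ), tr (h'⁻¹ * g * h') = tr g := by
    intro g
    have := tr_conj g h'⁻¹
    rwa [inv_inv] at this
  -- traces
  have tγ : |tr γ| = 2 * Real.cosh (l / 2) := by
    rw [← trconj γ, eγ, hz.tr, tr_eq, g00, g11, Real.cosh_eq, abs_of_pos (by positivity)]; ring
  have tη : |tr η| = 2 * |Real.cos θ| * Real.cosh (u / 2) := by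
    rw [← trconj η, eη, hwC.tr, tr_eq, m00, m11, g00, g11, g01, g10, r00, r10, r01, r11]
    rw [show Real.exp (u / 2) * Real.cos θ + 0 * Real.sin θ + (0 * -Real.sin θ +
      Real.exp (-(u / 2)) * Real.cos θ) = 2 * Real.cos θ * Real.cosh (u / 2) by rw [Real.cosh_eq]; ring,
      abs_mul, abs_mul, abs_of_pos (Real.cosh_pos _)]
    norm_num
  have tη2 : |tr (η⁻¹ * γ)| = 2 * |Real.cos θ| * Real.cosh ((l - u) / 2) := by
    have e1 : h'⁻¹ * (η⁻¹ * γ) * h' = (w⁻¹ * z) * ((geo u * rot θ)⁻¹ * geo l) := by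
      have e2 : h'⁻¹ * (η⁻¹ * γ) * h' = (h'⁻¹ * η * h')⁻¹ * (h'⁻¹ * γ * h') := by group
      rw [e2, eη, eγ, _root_.mul_inv_rev]
      have e3 := (hwC.inv.mul hz).comm ((geo u * rot θ)⁻¹)
      calc (geo u * rot θ)⁻¹ * w⁻¹ * (z * geo l) = ((geo u * rot θ)⁻¹ * (w⁻¹ * z)) * geo l := by group
        _ = ((w⁻¹ * z) * (geo u * rot θ)⁻¹) * geo l := by rw [e3]
        _ = _ := by group
    rw [← trconj (η⁻¹ * γ), e1, (hwC.inv.mul hz).tr, tr_eq, m00, m11, i00, i01, i10, i11, m00, m01, m10, m11,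
      g00, g00, g11, g11, g01, g01, g10, g10, r00, r10, r01, r11]
    have : (0 * -Real.sin θ + Real.exp (-(u / 2)) * Real.cos θ) * Real.exp (l / 2) +
        -(Real.exp (u / 2) * -Real.sin θ + 0 * Real.cos θ) * 0 +
        (-(0 * Real.cos θ + Real.exp (-(u / 2)) * Real.sin θ) * 0 +
        (Real.exp (u / 2) * Real.cos θ + 0 * Real.sin θ) * Real.exp (-(l / 2))) =
        2 * Real.cos θ * Real.cosh ((l - u) / 2) := by
      have a1 : Real.exp ((l - u) / 2) = Real.exp (-(u / 2)) * Real.exp (l / 2) := by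
        rw [← Real.exp_add]; congr 1; ring
      have a2 : Real.exp (-((l - u) / 2)) = Real.exp (u / 2) * Real.exp (-(l / 2)) := by
        rw [← Real.exp_add]; congr 1; ring
      rw [Real.cosh_eq, a1, a2]; ring
    rw [this, abs_mul, abs_mul, abs_of_pos (Real.cosh_pos _)]
    norm_num
  have tη3 : |tr (η * γ⁻¹ * η)| = |2 * Real.cos θ ^ 2 * Real.cosh (u - l / 2) -
      2 * Real.sin θ ^ 2 * Real.cosh (l / 2)| := by
    have e1 : h'⁻¹ * (η * γ⁻¹ * η) * h' = (w * z⁻¹ * w) * (geo u * rot θ * (geo l)⁻¹ * (geo u * rot θ)) := by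
      have e2 : h'⁻¹ * (η * γ⁻¹ * η) * h' = (h'⁻¹ * η * h') * (h'⁻¹ * γ * h')⁻¹ * (h'⁻¹ * η * h') := by group
      rw [e2, eη, eγ, _root_.mul_inv_rev]
      have c1 := (hz.inv).comm ((geo l)⁻¹)
      have c2 := (hz.inv).comm (geo u * rot θ)
      have c3 := hwC.comm (geo u * rot θ * (geo l)⁻¹)
      calc w * (geo u * rot θ) * ((geo l)⁻¹ * z⁻¹) * (w * (geo u * rot θ))
          = w * (geo u * rot θ) * (z⁻¹ * (geo l)⁻¹) * (w * (geo u * rot θ)) := by rw [c1]
        _ = w * ((geo u * rot θ) * z⁻¹) * (geo l)⁻¹ * w * (geo u * rot θ) := by group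
        _ = w * (z⁻¹ * (geo u * rot θ)) * (geo l)⁻¹ * w * (geo u * rot θ) := by rw [c2]
        _ = w * z⁻¹ * ((geo u * rot θ * (geo l)⁻¹) * w) * (geo u * rot θ) := by group
        _ = w * z⁻¹ * (w * (geo u * rot θ * (geo l)⁻¹)) * (geo u * rot θ) := by rw [c3]
        _ = _ := by group
    rw [← trconj (η * γ⁻¹ * η), e1, ((hwC.mul hz.inv).mul hwC).tr]
    congr 1
    have b1 : Real.exp (l / 2) = Real.exp (u / 2) * (Real.exp (-(u / 2)) * Real.exp (l / 2)) := by
      rw [← Real.exp_add, ← Real.exp_add]; congr 1; ring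
    have a1 : Real.exp (u - l / 2) = Real.exp (u / 2) * Real.exp (u / 2) * Real.exp (-(l / 2)) := by
      rw [← Real.exp_add, ← Real.exp_add]; congr 1; ring
    have a2 : Real.exp (-(u - l / 2)) = Real.exp (-(u / 2)) * Real.exp (-(u / 2)) * Real.exp (l / 2) := by
      rw [← Real.exp_add, ← Real.exp_add]; congr 1; ring
    have a3 : Real.exp (u / 2) * Real.exp (-(u / 2)) = 1 := by
      rw [← Real.exp_add]; simp
    simp only [tr_eq, m00, m01, m10, m11, i00, i01, i10, i11, g00, g01, g10, g11, r00, r01, r10, r11]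
    rw [Real.cosh_eq, Real.cosh_eq, a1, a2]
    linear_combination (-(Real.sin θ ^ 2) * (Real.exp (l / 2) + Real.exp (-(l / 2)))) * a3
  -- the sine does not vanish
  have hsin : Real.sin θ ≠ 0 := by
    intro h0
    apply hne
    have hrot : IsC (rot θ) := by
      have h1 := Real.sin_sq_add_cos_sq θ
      rw [h0] at h1
      have h2 : Real.cos θ = 1 ∨ Real.cos θ = -1 := by
        have : (Real.cos θ - 1) * (Real.cos θ + 1) = 0 := by nlinarith
        rcases mul_eq_zero.mp this with h | h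
        · left; linarith
        · right; linarith
      rcases h2 with h2 | h2
      · left
        apply sl_ext
        · rw [r00, h2, o00]
        · rw [r01, h0, o01]; ring
        · rw [r10, h0, o10]
        · rw [r11, h2, o11]
      · right
        apply sl_ext
        · rw [r00, h2, n00, o00]
        · rw [r01, h0, n01, o01]
        · rw [r10, h0, n10, o10]; ring
        · rw [r11, h2, n11, o11]
    refine line_eq_of (w := rot θ) (v := s - t) hrot ?_
    have e1 : δ * h = h * geo s * rot θ * (geo t)⁻¹ := by rw [← hst]; group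
    have e2 : geo (s - t) = geo s * (geo t)⁻¹ := by rw [← geo_neg, ← geo_add]; rfl
    rw [e1, e2]
    calc h * geo s * rot θ * (geo t)⁻¹ = (h * geo s * rot θ) * (geo t)⁻¹ := by group
      _ = (rot θ * (h * geo s)) * (geo t)⁻¹ := by rw [hrot.comm]
      _ = _ := by group
  have hcs := Real.sin_sq_add_cos_sq θ
  have hs2 : 0 < Real.sin θ ^ 2 := by positivity
  have hcos1 : |Real.cos θ| < 1 := by
    have h0 : Real.cos θ ^ 2 < (1:ℝ) ^ 2 := by rw [one_pow]; linarith
    exact abs_lt_of_sq_lt_sq h0 zero_le_one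
  have hcos0 : Real.cos θ ≠ 0 := by
    intro h0
    have := sg_elliptic hΓ hηΓ
    rw [tη, h0] at this
    norm_num at this
  have hc2 : 0 < Real.cos θ ^ 2 := by positivity
  have hcl : 0 < Real.cosh (l / 2) := Real.cosh_pos _
  refine ⟨η, hηΓ, ?_, ?_, ?_, ?_⟩
  · intro h1
    rw [h1] at eη
    have e1 : h'⁻¹ * 1 * h' = 1 := by group
    rw [e1] at eη
    have e2 : (1 : SL(2, ℝ)) 1 0 = (w * (geo u * rot θ)) 1 0 := by rw [← eη]
    rw [o10] at e2
    apply hsin
    have hexp := (Real.exp_pos (-(u / 2))).ne'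
    rcases hwC with hw1 | hw1
    · rw [hw1, one_mul, m10, g10, g11, r10] at e2
      have : Real.exp (-(u / 2)) * Real.sin θ = 0 := by linarith
      exact (mul_eq_zero.mp this).resolve_left hexp
    · rw [hw1, neg_one_mul, n10, m10, g10, g11, r10] at e2
      have : Real.exp (-(u / 2)) * Real.sin θ = 0 := by linarith
      exact (mul_eq_zero.mp this).resolve_left hexp
  · rw [tη, tγ]
    have h1 : Real.cosh (u / 2) ≤ Real.cosh (l / 2) := by
      rw [Real.cosh_le_cosh, abs_of_nonneg (by linarith), abs_of_nonneg (by linarith)]; linarith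
    have h2 := Real.cosh_pos (u / 2)
    calc 2 * |Real.cos θ| * Real.cosh (u / 2) < 2 * 1 * Real.cosh (u / 2) := by gcongr
      _ ≤ 2 * Real.cosh (l / 2) := by linarith
  · rw [tη2, tγ]
    have h1 : Real.cosh ((l - u) / 2) ≤ Real.cosh (l / 2) := by
      rw [Real.cosh_le_cosh, abs_of_nonneg (by linarith), abs_of_nonneg (by linarith)]; linarith
    have h2 := Real.cosh_pos ((l - u) / 2)
    calc 2 * |Real.cos θ| * Real.cosh ((l - u) / 2) < 2 * 1 * Real.cosh ((l - u) / 2) := by gcongr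
      _ ≤ 2 * Real.cosh (l / 2) := by linarith
  · rw [tη3, tγ]
    have h1 : Real.cosh (u - l / 2) ≤ Real.cosh (l / 2) := by
      rw [Real.cosh_le_cosh, abs_of_nonneg (show 0 ≤ l / 2 by linarith), abs_le]
      constructor <;> linarith
    have h2 := Real.cosh_pos (u - l / 2)
    rw [abs_lt]
    constructor
    · nlinarith [mul_pos hc2 h2, mul_pos hc2 hcl]
    · nlinarith [mul_pos hs2 hcl, mul_le_mul_of_nonneg_left h1 hc2.le]

/-- an element which is not simple can be resolved -/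
theorem skein_exists (hΓ : IsSurfaceGroup Γ) {γ : Γ} (h1 : γ ≠ 1) (hns : ¬ IsSimpleElt Γ γ) :
    ∃ η : Γ, η ≠ 1 ∧ |tr (η : SL(2, ℝ))| < |tr (γ : SL(2, ℝ))| ∧
      |tr ((η⁻¹ * γ : Γ) : SL(2, ℝ))| < |tr (γ : SL(2, ℝ))| ∧
      |tr ((η * γ⁻¹ * η : Γ) : SL(2, ℝ))| < |tr (γ : SL(2, ℝ))| := by
  have h1' : (γ : SL(2, ℝ)) ≠ 1 := fun h => h1 (Subtype.ext h)
  obtain ⟨h, l, hl, hax, htr⟩ := sg_hyperbolic hΓ γ.2 h1'
  have hnsc : ¬ IsSimpleClosed Γ h := fun hsc => hns ⟨h1, h, l, hl, hax, hsc⟩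
  have h2 : ¬ ∀ δ ∈ Γ, line (δ * h) = line h ∨ Disjoint (line (δ * h)) (line h) :=
    fun hall => hnsc ⟨⟨γ, γ.2, l, hl, hax⟩, hall⟩
  push Not at h2
  obtain ⟨δ, hδ, hne, hnd⟩ := h2
  obtain ⟨η, hη, hη1, t1, t2, t3⟩ := skein_step hΓ γ.2 hl hax hδ hne hnd
  exact ⟨⟨η, hη⟩, fun h => hη1 (congrArg Subtype.val h), t1, t2, t3⟩

/-- strong induction on the absolute trace -/
theorem trace_induction (hΓ : IsSurfaceGroup Γ) {P : Γ → Prop}
    (h : ∀ γ : Γ, (∀ η : Γ, |tr (η : SL(2, ℝ))| < |tr (γ : SL(2, ℝ))| → P η) → P γ) (γ : Γ) : P γ := by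
  -- number of smaller traces
  set N : Γ → ℕ := fun γ => {x : ℝ | x < |tr (γ : SL(2, ℝ))| ∧ ∃ η ∈ Γ, |tr η| = x}.ncard with hN
  have hfin : ∀ γ : Γ, {x : ℝ | x < |tr (γ : SL(2, ℝ))| ∧ ∃ η ∈ Γ, |tr η| = x}.Finite := by
    intro γ
    exact (finite_traces hΓ |tr (γ : SL(2, ℝ))|).subset fun x hx => ⟨hx.1.le, hx.2⟩
  have hlt : ∀ γ η : Γ, |tr (η : SL(2, ℝ))| < |tr (γ : SL(2, ℝ))| → N η < N γ := by
    intro γ η hηγ
    apply Set.ncard_lt_ncard _ (hfin γ)
    constructor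
    · intro x hx; exact ⟨lt_trans hx.1 hηγ, hx.2⟩
    · intro hsub
      have h1 : |tr (η : SL(2, ℝ))| ∈ {x : ℝ | x < |tr (γ : SL(2, ℝ))| ∧ ∃ η ∈ Γ, |tr η| = x} :=
        ⟨hηγ, η, η.2, rfl⟩
      have h2 := hsub h1
      exact lt_irrefl _ h2.1
  have main : ∀ n : ℕ, ∀ γ : Γ, N γ = n → P γ := by
    intro n
    induction n using Nat.strong_induction_on with
    | _ n ih =>
      intro γ hγ
      apply h
      intro η hη
      exact ih (N η) (by rw [← hγ]; exact hlt γ η hη) η rfl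
  exact main _ γ rfl

lemma exists_ne_one (hΓ : IsSurfaceGroup Γ) : ∃ γ : Γ, γ ≠ 1 := by
  by_contra hc
  push Not at hc
  obtain ⟨K, hK, hcov⟩ := hΓ.cocompact
  obtain ⟨B, hB1, hB⟩ := exists_bdd hK
  obtain ⟨γ, hγ, k, hk, h⟩ := hcov (geo (2 * B))
  have h1 : γ = 1 := congrArg Subtype.val (hc ⟨γ, hγ⟩)
  rw [h1, one_mul] at h
  have h2 := hB k hk 0 0
  rw [← h] at h2
  have h3 : (geo (2 * B)) 0 0 = Real.exp B := by rw [g00]; congr 1; ring
  rw [h3, abs_of_pos (Real.exp_pos _)] at h2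
  have := Real.add_one_le_exp B
  linarith

/-- **Existence of simple elements.** -/
theorem simple_exists (hΓ : IsSurfaceGroup Γ) : ∃ γ : Γ, IsSimpleElt Γ γ := by
  by_contra hc
  push Not at hc
  obtain ⟨γ, hγ⟩ := exists_ne_one hΓ
  revert hγ
  apply trace_induction hΓ (P := fun γ => ¬ γ ≠ 1)
  intro γ ih h1
  obtain ⟨η, hη1, hη, _, _⟩ := skein_exists hΓ h1 (hc γ)
  exact ih η hη hη1

/-- **Traces of simple elements control all traces.** -/
theorem controlled (hΓ : IsSurfaceGroup Γ) (w : Γ) : ∃ F : Finset Γ, (∀ f ∈ F, IsSimpleElt Γ f) ∧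
    ∀ M : ℝ, ∃ M' : ℝ, ∀ ψ : Γ →* SL(2, ℝ), (∀ f ∈ F, |tr (ψ f)| ≤ M) → |tr (ψ w)| ≤ M' := by
  classical
  induction w using trace_induction hΓ with
  | _ w ih =>
    by_cases h1 : w = 1
    · refine ⟨∅, by simp, fun M => ⟨2, fun ψ _ => ?_⟩⟩
      rw [h1, map_one, tr_one, abs_of_pos (by norm_num)]
    · by_cases hs : IsSimpleElt Γ w
      · exact ⟨{w}, by simpa using hs, fun M => ⟨M, fun ψ h => h w (by simp)⟩⟩
      · obtain ⟨η, _, t1, t2, t3⟩ := skein_exists hΓ h1 hs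
        obtain ⟨F1, hF1, H1⟩ := ih _ t1
        obtain ⟨F2, hF2, H2⟩ := ih _ t2
        obtain ⟨F3, hF3, H3⟩ := ih _ t3
        refine ⟨F1 ∪ F2 ∪ F3, ?_, ?_⟩
        · intro f hf
          rw [Finset.mem_union, Finset.mem_union] at hf
          rcases hf with (hf | hf) | hf
          · exact hF1 f hf
          · exact hF2 f hf
          · exact hF3 f hf
        · intro M
          obtain ⟨M1, h1⟩ := H1 M
          obtain ⟨M2, h2⟩ := H2 M
          obtain ⟨M3, h3⟩ := H3 M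
          refine ⟨M1 * M2 + M3, ?_⟩
          intro ψ hψ
          have k1 := h1 ψ (fun f hf => hψ f (by simp [hf]))
          have k2 := h2 ψ (fun f hf => hψ f (by simp [hf]))
          have k3 := h3 ψ (fun f hf => hψ f (by simp [hf]))
          have e := tr_skein (ψ η) (ψ w)
          rw [map_mul, map_inv] at k2
          rw [map_mul, map_mul, map_inv] at k3
          rw [e]
          calc |tr (ψ η) * tr ((ψ η)⁻¹ * ψ w) - tr (ψ η * (ψ w)⁻¹ * ψ η)|
              ≤ |tr (ψ η) * tr ((ψ η)⁻¹ * ψ w)| + |tr (ψ η * (ψ w)⁻¹ * ψ η)| := abs_sub _ _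
            _ = |tr (ψ η)| * |tr ((ψ η)⁻¹ * ψ w)| + |tr (ψ η * (ψ w)⁻¹ * ψ η)| := by rw [abs_mul]
            _ ≤ M1 * M2 + M3 := by
                have := mul_le_mul k1 k2 (abs_nonneg _) (le_trans (abs_nonneg _) k1)
                linarith

end Pool.Agent.SimpleAnosov.H64
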